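import Pool.Agent.SM4.TDefs
import Pool.Agent.SM2.St2

/-!
# MP_e40716_gt (SM4): the condition `LCT`
-/

set_option autoImplicit false

namespace Pool.Agent.SM4

open Pool.Agent.SM2

universe u

/-- The condition on the element `g` with centraliser `C`, for a subring `A` of a field `F`, `n > 0` and `N`:
if `F` has characteristic `0`, additive homomorphisms from `A` to rings `ℤ[1/M]`, `M` prime to `N`, detect
the nonzero elements of `A`; and some homomorphism `C → GL_k(A)` maps `g` to an element of infinite order,
where `k = n` or the groups `H^(2 j + 1)(C; ℤ[1/M])`, `j ≥ n`, `M > 0`, are torsion groups. -/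
def CT {F : Type u} [Field F] (A : Subring F) (n N : ℕ) {G : Type u} [Group G] (g : G) : Prop :=
  (CharZero F → AddH A N) ∧
  ∃ (k : ℕ) (ρ : Subgroup.centralizer {g} →* Matrix (Fin k) (Fin k) A),
    (k = n ∨ TorH n (Subgroup.centralizer {g})) ∧ ¬IsOfFinOrder (ρ (cel g))

/-- The condition on the group `G` and the number `N`: every finitely generated subgroup of `G` is
contained in a subgroup `G1` for which there are a finitely generated subring `A` of a field `F` and an
`n > 0` such that `CT A n N g` holds for all `g ∈ G1` of infinite order. -/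
def LCT (N : ℕ) (G : Type u) [Group G] : Prop :=
  ∀ G0 : Subgroup G, G0.FG → ∃ G1 : Subgroup G, G0 ≤ G1 ∧
    ∃ (F : Type u) (_ : Field F) (S : Set F) (n : ℕ), S.Finite ∧ 0 < n ∧
      ∀ g : G1, ¬IsOfFinOrder g → CT (Subring.closure S) n N g

end Pool.Agent.SM4
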