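import Pool.Agent.SM4.St

/-!
# SM4, module CAR: from a nilpotent Euler class to `Cart`
-/

set_option autoImplicit false

open Pool.Agent.SUR

noncomputable section

namespace Pool.Agent.SM4

universe u v

namespace CAR

section

variable {Z : Type u} {R : Type v} [Group Z] [CommRing R]

/-- the primitive of the cup powers of the Euler cocycle -/
def D (s : Z → R) : List Z → R
  | x :: y :: w :: l => eu s x y w * D s (w :: l)
  | [x, y] => s (x⁻¹ * y)
  | _ => 0

theorem D_three (s : Z → R) (x y w : Z) (l : List Z) :
    D s (x :: y :: w :: l) = eu s x y w * D s (w :: l) := rfl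

theorem D_two (s : Z → R) (x y : Z) : D s [x, y] = s (x⁻¹ * y) := rfl

omit [Group Z] in
theorem cobL_sub (φ ψ : List Z → R) (l : List Z) :
    cobL (fun l' => φ l' - ψ l') l = cobL φ l - cobL ψ l := by
  unfold cobL
  rw [← Finset.sum_sub_distrib]
  exact Finset.sum_congr rfl fun i _ => by ring

omit [Group Z] in
theorem cobL_nil (φ : List Z → R) : cobL φ [] = 0 := by
  unfold cobL
  simp

/-- (1) -/
theorem cob_D (s : Z → R) (k : ℕ) : ∀ l : List Z, l.length = 2 * k + 3 →
    cobL (D s) l = cupE s l := by
  induction k with
  | zero =>
    intro l hl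
    match l, hl with
    | [x, y, w], _ =>
      rw [cobL_cons, cobL_cons, cobL_cons, cobL_nil, D_two, D_two, D_two]
      have c1 : cupE s [x, y, w] = eu s x y w * 1 := rfl
      rw [c1]
      unfold eu
      ring
  | succ k ih =>
    intro l hl
    match l, hl with
    | x :: y :: w :: u :: l, hl =>
      have h2 : (w :: u :: l).length = 2 * k + 3 := by
        simp only [List.length_cons] at hl ⊢
        omega
      have e2 := ih _ h2
      rw [cobL_cons] at e2
      have e3 : cobL (fun l' => D s (x :: y :: w :: l')) (u :: l) =
          eu s x y w * cobL (fun l' => D s (w :: l')) (u :: l) := by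
        rw [← cobL_smul]
        rfl
      rw [cobL_cons, cobL_cons, cobL_cons, e3, D_three, D_three, D_three]
      have hc := eu_cocycle s x y w u
      have c1 : cupE s (x :: y :: w :: u :: l) = eu s x y w * cupE s (w :: u :: l) := rfl
      rw [c1, ← e2]
      linear_combination D s (u :: l) * hc

theorem ins_smul (c : Z) (a : R) (l : List Z) : ∀ f : List Z → R,
    ins c (fun m => a * f m) l = a * ins c f l := by
  induction l with
  | nil =>
    intro f
    show (0 : R) = a * 0
    ring
  | cons x l ih =>
    intro f
    have h := ih fun m => f (x :: m)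
    show a * f (x :: c * x :: l.map fun y => c * y) - ins c (fun m => a * f (x :: m)) l =
      a * (f (x :: c * x :: l.map fun y => c * y) - ins c (fun m => f (x :: m)) l)
    rw [h]
    ring

theorem ins_sub (c : Z) (l : List Z) : ∀ f g : List Z → R,
    ins c (fun m => f m - g m) l = ins c f l - ins c g l := by
  induction l with
  | nil =>
    intro f g
    show (0 : R) = 0 - 0
    ring
  | cons x l ih =>
    intro f g
    have h := ih (fun m => f (x :: m)) fun m => g (x :: m)
    show f (x :: c * x :: l.map fun y => c * y) - g (x :: c * x :: l.map fun y => c * y) -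
      ins c (fun m => f (x :: m) - g (x :: m)) l =
      (f (x :: c * x :: l.map fun y => c * y) - ins c (fun m => f (x :: m)) l) -
      (g (x :: c * x :: l.map fun y => c * y) - ins c (fun m => g (x :: m)) l)
    rw [h]
    ring

theorem ins_zero (c : Z) (l : List Z) : ins c (fun _ => (0 : R)) l = 0 := by
  induction l with
  | nil => rfl
  | cons x l ih =>
    show (0 : R) - ins c (fun _ => (0 : R)) l = 0
    rw [ih, sub_zero]

/-- (4) -/
theorem ins_per (c : Z) (l : List Z) : ∀ f : List Z → R, Per c f → Nrm f → ins c f l = 0 := by
  induction l with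
  | nil =>
    intro f _ _
    rfl
  | cons x l ih =>
    intro f hp hn
    have h := ih (fun m => f (x :: m)) (fun a y b => hp (x :: a) y b) fun a y b => hn (x :: a) y b
    show f (x :: c * x :: l.map fun y => c * y) - ins c (fun m => f (x :: m)) l = 0
    have h1 : f (x :: c * x :: l.map fun y => c * y) = f (x :: x :: l.map fun y => c * y) :=
      hp [x] x _
    have h2 : f (x :: x :: l.map fun y => c * y) = 0 := hn [] x _
    rw [h, h1, h2, sub_zero]

theorem shift_mid {c : Z} (hc : ∀ z, c * z = z * c) {v : R} {s : Z → R}
    (hs : ∀ z, s (c * z) = s z + v) (x y : Z) : s (x⁻¹ * (c * y)) = s (x⁻¹ * y) + v := by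
  rw [← mul_assoc, ← hc, mul_assoc, hs]

theorem shift_self {c : Z} (hc : ∀ z, c * z = z * c) {v : R} {s : Z → R} (h1 : s 1 = 0)
    (hs : ∀ z, s (c * z) = s z + v) (x : Z) : s (x⁻¹ * (c * x)) = v := by
  rw [shift_mid hc hs, inv_mul_cancel, h1, zero_add]

/-- (2) -/
theorem ins_D {c : Z} (hc : ∀ z, c * z = z * c) {v : R} {s : Z → R} (h1 : s 1 = 0)
    (hs : ∀ z, s (c * z) = s z + v) (k : ℕ) : ∀ l : List Z, l.length = 2 * k + 1 →
    ins c (D s) l = v * cupE s l := by
  induction k with
  | zero =>
    intro l hl
    match l, hl with
    | [x], _ =>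
      show D s [x, c * x] - 0 = v * 1
      rw [D_two, shift_self hc h1 hs]
      ring
  | succ k ih =>
    intro l hl
    match l, hl with
    | x :: y :: w :: l, hl =>
      have h2 : (w :: l).length = 2 * k + 1 := by
        simp only [List.length_cons] at hl ⊢
        omega
      have e2 := ih _ h2
      have e0 : ins c (D s) (w :: l) = D s (w :: c * w :: l.map fun y => c * y) -
        ins c (fun m => D s (w :: m)) l := rfl
      have e3 : ins c (fun m => D s (x :: y :: w :: m)) l =
          eu s x y w * ins c (fun m => D s (w :: m)) l := by
        rw [← ins_smul]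
        rfl
      show D s (x :: c * x :: c * y :: c * w :: l.map fun y => c * y) -
        (D s (x :: y :: c * y :: c * w :: l.map fun y => c * y) -
          (D s (x :: y :: w :: c * w :: l.map fun y => c * y) -
            ins c (fun m => D s (x :: y :: w :: m)) l)) = v * (eu s x y w * cupE s (w :: l))
      have z1 : eu s x (c * x) (c * y) = 0 := by
        have z0 : (c * x)⁻¹ * (c * y) = x⁻¹ * y := by
          rw [mul_inv_rev, mul_assoc, inv_mul_cancel_left]
        unfold eu
        rw [z0, shift_self hc h1 hs, shift_mid hc hs]
        ring
      have z2 : eu s x y (c * y) = 0 := by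
        unfold eu
        rw [shift_self hc h1 hs, shift_mid hc hs]
        ring
      rw [e3, D_three, D_three, D_three, z1, z2]
      rw [e0] at e2
      linear_combination eu s x y w * e2

theorem eu_inv (s : Z → R) (w x y z : Z) : eu s (w * x) (w * y) (w * z) = eu s x y z := by
  unfold eu
  simp only [mul_inv_rev, mul_assoc, inv_mul_cancel_left]

/-- (3) -/
theorem D_inv (s : Z → R) : Inv (D s) := by
  intro w l
  induction l using D.induct with
  | case1 x y z l ih =>
    show eu s (w * x) (w * y) (w * z) * D s ((z :: l).map fun x => w * x) = _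
    rw [ih, eu_inv, D_three]
  | case2 x y =>
    show s ((w * x)⁻¹ * (w * y)) = s (x⁻¹ * y)
    rw [mul_inv_rev, mul_assoc, inv_mul_cancel_left]
  | case3 l h1 h2 =>
    match l, h1, h2 with
    | [], _, _ => rfl
    | [x], _, _ => rfl
    | [x, y], _, h2 => exact absurd rfl (h2 x y)
    | x :: y :: z :: l, h1, _ => exact absurd rfl (h1 x y z l)

theorem D_nrm {s : Z → R} (h1 : s 1 = 0) (n : ℕ) : ∀ (a : List Z), a.length ≤ n →
    ∀ (x : Z) (b : List Z), D s (a ++ x :: x :: b) = 0 := by
  induction n using Nat.strong_induction_on with
  | _ n ih =>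
    intro a ha x b
    match a, ha with
    | [], _ =>
      match b with
      | [] =>
        show s (x⁻¹ * x) = 0
        rw [inv_mul_cancel, h1]
      | w :: l =>
        show eu s x x w * D s (w :: l) = 0
        unfold eu
        rw [inv_mul_cancel, h1]
        ring
    | [y], _ =>
      show eu s y x x * D s (x :: b) = 0
      unfold eu
      rw [inv_mul_cancel, h1]
      ring
    | [y, u], ha =>
      show eu s y u x * D s (x :: x :: b) = 0
      have h := ih 0 (by simp only [List.length_cons] at ha; omega) [] le_rfl x b
      have h' : D s (x :: x :: b) = 0 := h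
      rw [h', mul_zero]
    | y :: u :: w :: a, ha =>
      show eu s y u w * D s ((w :: a) ++ x :: x :: b) = 0
      have h := ih (a.length + 1) (by simp only [List.length_cons] at ha; omega) (w :: a)
        le_rfl x b
      rw [h, mul_zero]

theorem D_isC {s : Z → R} (h1 : s 1 = 0) : IsC (D s) :=
  ⟨D_inv s, fun a x b => D_nrm h1 a.length a le_rfl x b⟩

end

end CAR

open CAR in
theorem t_CAR : S_CAR.{u, v} := by
  intro Z R _ _ c hc r v t s φ h1 hs hφ hper hcob
  have hD := D_isC h1
  refine ⟨fun k l => if k < r then t * (-v) ^ (r - k) * D s l else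
    if k = r then t * D s l - φ l else 0, ?_, ?_, ?_, ?_⟩
  · intro k
    refine ⟨fun w l => ?_, fun a x b => ?_⟩
    · show (if k < r then t * (-v) ^ (r - k) * D s (l.map fun x => w * x) else
        if k = r then t * D s (l.map fun x => w * x) - φ (l.map fun x => w * x) else 0) = _
      rw [hD.inv w l, hφ.inv w l]
    · show (if k < r then t * (-v) ^ (r - k) * D s (a ++ x :: x :: b) else
        if k = r then t * D s (a ++ x :: x :: b) - φ (a ++ x :: x :: b) else 0) = 0
      rw [hD.nrm a x b, hφ.nrm a x b]
      simp
  · intro k l hk
    show (if k < r then t * (-v) ^ (r - k) * D s l else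
        if k = r then t * D s l - φ l else 0) = 0
    rw [if_neg (by omega), if_neg (by omega)]
  · intro k l hl
    have e1 := cob_D s k l hl
    have e2 := ins_D hc h1 hs (k + 1) l (by omega)
    rcases lt_trichotomy k r with hk | hk | hk
    · have y1 : (fun l => if k < r then t * (-v) ^ (r - k) * D s l else
          if k = r then t * D s l - φ l else 0) = fun l => t * (-v) ^ (r - k) * D s l := by
        funext l
        rw [if_pos hk]
      show cobL (fun l => if k < r then t * (-v) ^ (r - k) * D s l else
        if k = r then t * D s l - φ l else 0) l = -ins c (fun l => if k + 1 < r then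
          t * (-v) ^ (r - (k + 1)) * D s l else if k + 1 = r then t * D s l - φ l else 0) l
      rw [y1, cobL_smul, e1]
      rcases Nat.lt_or_ge (k + 1) r with hk' | hk'
      · have y2 : (fun l => if k + 1 < r then t * (-v) ^ (r - (k + 1)) * D s l else
            if k + 1 = r then t * D s l - φ l else 0) =
            fun l => t * (-v) ^ (r - (k + 1)) * D s l := by
          funext l
          rw [if_pos hk']
        rw [y2, ins_smul, e2]
        have hp : (-v) ^ (r - k) = (-v) ^ (r - (k + 1)) * (-v) := by
          rw [← pow_succ]
          congr 1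
          omega
        rw [hp]
        ring
      · have hkr : k + 1 = r := by omega
        have y2 : (fun l => if k + 1 < r then t * (-v) ^ (r - (k + 1)) * D s l else
            if k + 1 = r then t * D s l - φ l else 0) = fun l => t * D s l - φ l := by
          funext l
          rw [if_neg (by omega), if_pos hkr]
        rw [y2, ins_sub, ins_smul, e2, ins_per c l φ hper hφ.nrm]
        have hp : r - k = 1 := by omega
        rw [hp, pow_one]
        ring
    · subst hk
      show cobL (fun l => if k < k then t * (-v) ^ (k - k) * D s l else
        if k = k then t * D s l - φ l else 0) l = -ins c (fun l => if k + 1 < k then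
          t * (-v) ^ (k - (k + 1)) * D s l else if k + 1 = k then t * D s l - φ l else 0) l
      have y1 : (fun l => if k < k then t * (-v) ^ (k - k) * D s l else
          if k = k then t * D s l - φ l else 0) = fun l => t * D s l - φ l := by
        funext l
        rw [if_neg (lt_irrefl k), if_pos rfl]
      have y2 : (fun l => if k + 1 < k then t * (-v) ^ (k - (k + 1)) * D s l else
          if k + 1 = k then t * D s l - φ l else 0) = fun _ => (0 : R) := by
        funext l
        rw [if_neg (by omega), if_neg (by omega)]
      rw [y1, y2, cobL_sub, cobL_smul, e1, hcob l hl, ins_zero]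
      ring
    · show cobL (fun l => if k < r then t * (-v) ^ (r - k) * D s l else
        if k = r then t * D s l - φ l else 0) l = -ins c (fun l => if k + 1 < r then
          t * (-v) ^ (r - (k + 1)) * D s l else if k + 1 = r then t * D s l - φ l else 0) l
      have y1 : (fun l => if k < r then t * (-v) ^ (r - k) * D s l else
          if k = r then t * D s l - φ l else 0) = fun _ : List Z => (0 : R) := by
        funext l
        rw [if_neg (by omega), if_neg (by omega)]
      have y2 : (fun l => if k + 1 < r then t * (-v) ^ (r - (k + 1)) * D s l else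
          if k + 1 = r then t * D s l - φ l else 0) = fun _ => (0 : R) := by
        funext l
        rw [if_neg (by omega), if_neg (by omega)]
      rw [y1, y2, ins_zero, neg_zero]
      unfold cobL
      simp
  · intro z
    show (if 0 < r then t * (-v) ^ (r - 0) * D s [z, c * z] else
        if 0 = r then t * D s [z, c * z] - φ [z, c * z] else 0) = _
    rw [D_two, shift_self hc h1 hs]
    rcases Nat.eq_zero_or_pos r with hr | hr
    · subst hr
      have h2 : φ [z, c * z] = φ [z, z] := hper [z] z []
      have h3 : φ [z, z] = 0 := hφ.nrm [] z []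
      rw [if_neg (lt_irrefl 0), if_pos rfl, h2, h3]
      ring
    · rw [if_pos hr, Nat.sub_zero]

end Pool.Agent.SM4
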