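import Pool.Agent.SM4.St

/-!
# MP_e40716_gt (SM4), module CWT: the weight
-/

set_option autoImplicit false

open Pool.Agent.SUR
open Pool.Agent.SUR.LKERDaux (Pol)

noncomputable section

namespace Pool.Agent.SM4

universe u v

namespace CWT

theorem th_eq {Z : Type u} [Group Z] (b : FreeMonoid Z) : th Z b = (FreeMonoid.toList b).prod :=
  LKERDaux.th_prod b

section Spl

variable {Z : Type u} {R : Type v} [AddCommMonoid R]

theorem spl_congr (F G : List Z → Z → List Z → R) (h : ∀ a z b, F a z b = G a z b)
    (a w : List Z) : spl F a w = spl G a w := by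
  have : F = G := by
    funext a z b
    exact h a z b
  rw [this]

theorem spl_append (F : List Z → Z → List Z → R) (u u' : List Z) : ∀ a : List Z,
    spl F a (u ++ u') = spl (fun p z s => F p z (s ++ u')) a u + spl F (a ++ u) u' := by
  induction u with
  | nil =>
    intro a
    rw [List.nil_append, List.append_nil, spl, zero_add]
  | cons z u ih =>
    intro a
    rw [List.cons_append, spl, spl, ih, add_assoc, List.append_assoc, List.singleton_append]

theorem spl_shift (F : List Z → Z → List Z → R) (y w : List Z) : ∀ a : List Z,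
    spl F (y ++ a) w = spl (fun p z s => F (y ++ p) z s) a w := by
  induction w with
  | nil =>
    intro a
    rw [spl, spl]
  | cons z w ih =>
    intro a
    rw [spl, spl, List.append_assoc, ih]

end Spl

section Tr

variable {Z : Type u} [Group Z] {R : Type v} [CommRing R]

theorem sk_tr (t : Z) (k : ℕ) : ∀ (f : List Z → R) (q : Z) (w : List Z),
    Sk k f (t * q) w = Sk k (fun m => f (m.map fun x => t * x)) q w := by
  induction k with
  | zero =>
    intro f q w
    rw [Sk, Sk, List.map_nil]
  | succ k ih =>
    intro f q w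
    rw [Sk, Sk]
    apply spl_congr
    intro a z b
    have e : t * q * a.prod * z = t * (q * a.prod * z) := by
      simp only [mul_assoc]
    rw [e, ih]
    congr 1
    funext m
    rw [List.map_cons, List.map_cons, mul_assoc t q]

/-- the part of the sum with the first edge in `b` -/
def V (f : List Z → R) (k : ℕ) (a b : List Z) : R :=
  spl (fun p z s => Sk k (fun m => f (1 * p.prod :: 1 * p.prod * z :: m)) (1 * p.prod * z)
    (s ++ (a ++ (p ++ [z])))) [] b

theorem v_nil (f : List Z → R) (k : ℕ) (b : List Z) : V f k [] b = Sk (k + 1) f 1 b := by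
  rw [V, Sk]
  apply spl_congr
  intro p z s
  rw [List.nil_append]

theorem v_append (f : List Z → R) (hf : Inv f) (k : ℕ) (x y z : List Z) :
    V f k x (y ++ z) = V f k (x ++ y) z + V f k (z ++ x) y := by
  unfold V
  rw [spl_append, add_comm]
  congr 1
  · rw [List.nil_append]
    have h := spl_shift (fun p e s => Sk k (fun m => f (1 * p.prod :: 1 * p.prod * e :: m))
      (1 * p.prod * e) (s ++ (x ++ (p ++ [e])))) y z []
    rw [List.append_nil] at h
    rw [h]
    apply spl_congr
    intro p e s
    have e1 : 1 * (y ++ p).prod * e = y.prod * (1 * p.prod * e) := by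
      rw [List.prod_append]
      simp only [one_mul, mul_assoc]
    have e2 : s ++ (x ++ (y ++ p ++ [e])) = s ++ (x ++ y ++ (p ++ [e])) := by
      simp only [List.append_assoc]
    rw [e1, e2, sk_tr]
    congr 1
    funext m
    have e3 : 1 * (y ++ p).prod = y.prod * (1 * p.prod) := by
      rw [List.prod_append]
      simp only [one_mul]
    rw [e3]
    exact hf y.prod (1 * p.prod :: 1 * p.prod * e :: m)
  · apply spl_congr
    intro p e s
    congr 1
    simp only [List.append_assoc]

end Tr

end CWT

open CWT in
theorem t_CWT (hTOT : S_TOT.{u, v}) (hDGC : S_DGC.{u, v}) : S_CWT.{u, v} := by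
  classical
  intro Z R _ _ c hc r v Y hY
  have hcomm : ∀ x y : Z, x * y = c → y * x = c := by
    intro x y h
    have h1 : y = x⁻¹ * c := by rw [← h]; group
    rw [h1, ← hc x⁻¹, mul_assoc, inv_mul_cancel, mul_one]
  refine ⟨fun a b => if th Z (b * a) = c then ∑ k ∈ Finset.range r,
    V (Y k) k (FreeMonoid.toList a) (FreeMonoid.toList b) else 0, ⟨?_, ?_, ?_⟩, ?_⟩
  · intro x y z
    beta_reduce
    have e1 : th Z (y * z * x) = th Z (y * (z * x)) := by rw [mul_assoc]
    have e2 : th Z (y * (z * x)) = c ↔ th Z (z * (x * y)) = c := by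
      constructor
      · intro h
        rw [← mul_assoc, map_mul]
        apply hcomm
        rw [← map_mul]
        exact h
      · intro h
        rw [map_mul]
        apply hcomm
        rw [← map_mul, mul_assoc]
        exact h
    by_cases h : th Z (y * (z * x)) = c
    · rw [if_pos (e1.trans h), if_pos (e2.1 h), if_pos h, ← Finset.sum_add_distrib]
      refine Finset.sum_congr rfl fun k _ => ?_
      rw [FreeMonoid.toList_mul, FreeMonoid.toList_mul, FreeMonoid.toList_mul]
      exact v_append (Y k) (hY.isC k).inv k _ _ _
    · rw [if_neg (fun h' => h (e1.symm.trans h')), if_neg (fun h' => h (e2.2 h')), if_neg h,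
        add_zero]
  · intro a b h
    beta_reduce at h
    by_contra hne
    apply h
    rw [if_neg]
    intro h1
    apply hne
    rw [map_mul] at h1 ⊢
    exact hcomm _ _ h1
  · intro y hy
    beta_reduce
    rw [mul_one, if_pos hy, FreeMonoid.toList_one]
    rw [Finset.sum_congr rfl fun k _ => v_nil (Y k) k (FreeMonoid.toList y)]
    exact hTOT Z R c hc r v Y hY 1 (FreeMonoid.toList y) ((th_eq y).symm.trans hy)
  · intro C C' hC hC'
    beta_reduce
    obtain ⟨z, hz⟩ := LKERDaux.cub_th _ (Cub.mul C' C hC' hC)
    apply LKERDaux.altS_pol r (Nat.lt_succ_self r)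
    by_cases hz0 : z = c
    · have h2 : (fun ε => if th Z (C' ε * C ε) = c then ∑ k ∈ Finset.range r,
          V (Y k) k (FreeMonoid.toList (C ε)) (FreeMonoid.toList (C' ε)) else 0) =
          ∑ k ∈ Finset.range r, fun ε =>
            V (Y k) k (FreeMonoid.toList (C ε)) (FreeMonoid.toList (C' ε)) := by
        funext ε
        rw [if_pos ((hz ε).trans hz0), Finset.sum_apply]
      rw [h2]
      refine AddSubgroup.sum_mem _ fun k hk => ?_
      refine LKERDaux.pol_mono (Nat.succ_le_of_lt (Finset.mem_range.1 hk)) ?_
      exact (hDGC Z R (r + 1) k (Y k) 1 C' hC').2 C hC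
    · have h2 : (fun ε => if th Z (C' ε * C ε) = c then ∑ k ∈ Finset.range r,
          V (Y k) k (FreeMonoid.toList (C ε)) (FreeMonoid.toList (C' ε)) else 0) = 0 := by
        funext ε
        rw [if_neg (fun h => hz0 ((hz ε).symm.trans h))]
        rfl
      rw [h2]
      exact AddSubgroup.zero_mem _

end Pool.Agent.SM4
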