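import Pool.Agent.SM4.St

/-!
# SM4: module DGC (degrees of the sums over closed words)
-/

set_option autoImplicit false

open Pool.Agent.SUR
open Pool.Agent.SUR.LKERDaux (Pol)

noncomputable section

namespace Pool.Agent.SM4

universe u v

namespace DGC

section

variable {Z : Type u} [Group Z] {R : Type v} [AddCommGroup R] {d : ℕ}

theorem spl_app (F : List Z → Z → List Z → R) (u u' : List Z) : ∀ a : List Z,
    spl F a (u ++ u') = spl (fun p z s => F p z (s ++ u')) a u + spl F (a ++ u) u' := by
  induction u with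
  | nil =>
    intro a
    rw [List.nil_append, List.append_nil]
    simp only [spl, zero_add]
  | cons z u ih =>
    intro a
    rw [List.cons_append]
    simp only [spl]
    rw [ih (a ++ [z]), List.append_assoc, List.singleton_append, add_assoc]

theorem const_spl (k : ℕ) (F : (Fin d → Bool) → List Z → Z → List Z → R)
    (hF : ∀ P S : (Fin d → Bool) → FreeMonoid Z, Cub (th Z) P → Cub (th Z) S → ∀ z,
      (fun ε => F ε (FreeMonoid.toList (P ε)) z (FreeMonoid.toList (S ε))) ∈ Pol R d k)
    (l : List Z) : ∀ P : (Fin d → Bool) → FreeMonoid Z, Cub (th Z) P →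
      (fun ε => spl (F ε) (FreeMonoid.toList (P ε)) l) ∈ Pol R d k := by
  induction l with
  | nil =>
    intro P _
    exact LKERDaux.pol_const k 0
  | cons z b ih =>
    intro P hP
    have h1 := hF P (fun _ => FreeMonoid.ofList b) hP (Cub.const _) z
    have h2 := ih (fun ε => P ε * FreeMonoid.of z) (Cub.mul _ _ hP (Cub.const _))
    exact AddSubgroup.add_mem _ h1 h2

theorem cub_spl (k : ℕ) (C : (Fin d → Bool) → FreeMonoid Z) (hC : Cub (th Z) C) :
    ∀ F : (Fin d → Bool) → List Z → Z → List Z → R,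
    (∀ P S : (Fin d → Bool) → FreeMonoid Z, Cub (th Z) P → Cub (th Z) S → ∀ z,
      (fun ε => F ε (FreeMonoid.toList (P ε)) z (FreeMonoid.toList (S ε))) ∈ Pol R d k) →
    ∀ P : (Fin d → Bool) → FreeMonoid Z, Cub (th Z) P →
      (fun ε => spl (F ε) (FreeMonoid.toList (P ε)) (FreeMonoid.toList (C ε))) ∈
        Pol R d (k + 1) := by
  induction hC with
  | const a =>
    intro F hF P hP
    exact LKERDaux.pol_mono (Nat.le_succ k) (const_spl k F hF _ P hP)
  | slot s a a' h =>
    intro F hF P hP
    have h1 := LKERDaux.pol_ite k s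
      (fun ε => spl (F ε) (FreeMonoid.toList (P ε)) (FreeMonoid.toList a'))
      (fun ε => spl (F ε) (FreeMonoid.toList (P ε)) (FreeMonoid.toList a))
      (const_spl k F hF _ P hP) (const_spl k F hF _ P hP)
    have h2 : (fun ε : Fin d → Bool => spl (F ε) (FreeMonoid.toList (P ε))
        (FreeMonoid.toList (if ε s = true then a' else a))) =
        fun ε => if ε s = true then spl (F ε) (FreeMonoid.toList (P ε)) (FreeMonoid.toList a')
          else spl (F ε) (FreeMonoid.toList (P ε)) (FreeMonoid.toList a) := by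
      funext ε
      split_ifs <;> rfl
    rw [h2]
    exact h1
  | mul c c' hc hc' ih ih' =>
    intro F hF P hP
    have h1 := ih (fun ε p z s => F ε p z (s ++ FreeMonoid.toList (c' ε)))
      (fun P S hP hS z => hF P (fun ε => S ε * c' ε) hP (Cub.mul _ _ hS hc') z) P hP
    have h2 := ih' F hF (fun ε => P ε * c ε) (Cub.mul _ _ hP hc)
    have h3 : (fun ε => spl (F ε) (FreeMonoid.toList (P ε)) (FreeMonoid.toList (c ε * c' ε))) =
        (fun ε => spl (fun p z s => F ε p z (s ++ FreeMonoid.toList (c' ε)))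
          (FreeMonoid.toList (P ε)) (FreeMonoid.toList (c ε))) +
        fun ε => spl (F ε) (FreeMonoid.toList (P ε * c ε)) (FreeMonoid.toList (c' ε)) := by
      funext ε
      rw [Pi.add_apply, FreeMonoid.toList_mul, FreeMonoid.toList_mul, spl_app]
    rw [h3]
    exact AddSubgroup.add_mem _ h1 h2

theorem two_of_one (k : ℕ)
    (h1 : ∀ (f : List Z → R) (q : Z) (C : (Fin d → Bool) → FreeMonoid Z), Cub (th Z) C →
      (fun ε => Sk k f q (FreeMonoid.toList (C ε))) ∈ Pol R d k)
    (f : List Z → R) (q : Z) (C : (Fin d → Bool) → FreeMonoid Z) (hC : Cub (th Z) C)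
    (A : (Fin d → Bool) → FreeMonoid Z) (hA : Cub (th Z) A) :
    (fun ε => spl (fun a z b => Sk k (fun m => f (q * a.prod :: q * a.prod * z :: m))
      (q * a.prod * z) (b ++ (FreeMonoid.toList (A ε) ++ (a ++ [z])))) []
      (FreeMonoid.toList (C ε))) ∈ Pol R d (k + 1) := by
  refine cub_spl k C hC (fun ε a z b =>
    Sk k (fun m => f (q * a.prod :: q * a.prod * z :: m))
      (q * a.prod * z) (b ++ (FreeMonoid.toList (A ε) ++ (a ++ [z])))) ?_
    (fun _ => 1) (Cub.const _)
  intro P S hP hS z
  obtain ⟨p, hp⟩ := LKERDaux.cub_th P hP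
  have h2 := h1 (fun m => f (q * p :: q * p * z :: m)) (q * p * z)
    (fun ε => S ε * (A ε * (P ε * FreeMonoid.of z)))
    (Cub.mul _ _ hS (Cub.mul _ _ hA (Cub.mul _ _ hP (Cub.const _))))
  have h3 : (fun ε => Sk k (fun m => f (q * (FreeMonoid.toList (P ε)).prod ::
      q * (FreeMonoid.toList (P ε)).prod * z :: m)) (q * (FreeMonoid.toList (P ε)).prod * z)
      (FreeMonoid.toList (S ε) ++
        (FreeMonoid.toList (A ε) ++ (FreeMonoid.toList (P ε) ++ [z])))) =
      fun ε => Sk k (fun m => f (q * p :: q * p * z :: m)) (q * p * z)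
        (FreeMonoid.toList (S ε * (A ε * (P ε * FreeMonoid.of z)))) := by
    funext ε
    rw [← LKERDaux.th_prod, hp, FreeMonoid.toList_mul, FreeMonoid.toList_mul,
      FreeMonoid.toList_mul, FreeMonoid.toList_of]
  rw [h3]
  exact h2

theorem one (k : ℕ) : ∀ (f : List Z → R) (q : Z) (C : (Fin d → Bool) → FreeMonoid Z),
    Cub (th Z) C → (fun ε => Sk k f q (FreeMonoid.toList (C ε))) ∈ Pol R d k := by
  induction k with
  | zero =>
    intro f q C _
    exact LKERDaux.pol_const 0 (f [])
  | succ k ih =>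
    intro f q C hC
    exact two_of_one k ih f q C hC (fun _ => 1) (Cub.const _)

end

end DGC

/-- Module DGC. -/
theorem t_DGC : S_DGC.{u, v} := by
  intro Z R _ _ d k f q C hC
  exact ⟨DGC.one k f q C hC, fun A hA => DGC.two_of_one k (DGC.one k) f q C hC A hA⟩

end Pool.Agent.SM4
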