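import Pool.Agent.SM4.St
import Pool.Agent.SUR.LCORE

/-!
# NIL: the Euler class of a form of small rank is nilpotent
-/

set_option autoImplicit false

open Pool.Agent.SUR

noncomputable section

namespace Pool.Agent.SM4

universe u v

namespace NIL

variable {Z : Type u} {R : Type v} [Group Z] [CommRing R]

theorem eu_eq {c : Z} {v : R} {B : Z → Z → R} (hB : IsB c v B) (x y w : Z) :
    eu (B 1) x y w = PD B (x, y) (y, w) := by
  have h1 : B 1 (x⁻¹ * w) = B 1 (x⁻¹ * y) + B (y⁻¹ * x) (y⁻¹ * w) := by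
    have h := hB.mul 1 (x⁻¹ * y) (y⁻¹ * w)
    have e1 : x⁻¹ * y * (y⁻¹ * w) = x⁻¹ * w := by group
    have e2 : (x⁻¹ * y)⁻¹ * 1 = y⁻¹ * x := by group
    rw [e1, e2] at h
    exact h
  have h2 : B x w = B x y + B (y⁻¹ * x) (y⁻¹ * w) := by
    have h := hB.mul x y (y⁻¹ * w)
    rw [mul_inv_cancel_left] at h
    exact h
  have h3 : B y w = B y y + B 1 (y⁻¹ * w) := by
    have h := hB.mul y y (y⁻¹ * w)
    rw [mul_inv_cancel_left, inv_mul_cancel] at h
    exact h
  show B 1 (x⁻¹ * y) + B 1 (y⁻¹ * w) - B 1 (x⁻¹ * w) = B y w - B x w - B y y + B x y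
  rw [h1, h2, h3]
  ring

omit [Group Z] in
theorem pd_add1 (B : Z → Z → R) (x y w : Z) (e : Z × Z) :
    PD B (x, y) e + PD B (y, w) e = PD B (x, w) e := by
  unfold PD
  ring

omit [Group Z] in
theorem pd_add2 (B : Z → Z → R) (x y w : Z) (e : Z × Z) :
    PD B e (x, y) + PD B e (y, w) = PD B e (x, w) := by
  unfold PD
  ring

theorem pd_inv {c : Z} {v : R} {B : Z → Z → R} (hB : IsB c v B) (w : Z) (e e' : Z × Z) :
    PD B (w * e.1, w * e.2) (w * e'.1, w * e'.2) = PD B e e' := by
  have h : ∀ x y, B (w * x) (w * y) = B (w * x) w + B x y := by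
    intro x y
    have h := hB.mul (w * x) w y
    rw [inv_mul_cancel_left] at h
    exact h
  unfold PD
  simp only [h]
  ring

theorem B_per {c : Z} {v : R} {B : Z → Z → R} (hB : IsB c v B) (x y : Z) :
    B x (c * y) = v + B x y := by
  have h := hB.mul x c y
  rw [hB.val] at h
  have h2 := hB.inv (c⁻¹ * x) y
  rw [mul_inv_cancel_left] at h2
  rw [h, h2]

theorem pd_per11 {c : Z} {v : R} {B : Z → Z → R} (hB : IsB c v B) (x y : Z) (e : Z × Z) :
    PD B (c * x, y) e = PD B (x, y) e := by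
  unfold PD
  simp only [hB.inv]

theorem pd_per12 {c : Z} {v : R} {B : Z → Z → R} (hB : IsB c v B) (x y : Z) (e : Z × Z) :
    PD B (x, c * y) e = PD B (x, y) e := by
  unfold PD
  simp only [hB.inv]

theorem pd_per21 {c : Z} {v : R} {B : Z → Z → R} (hB : IsB c v B) (x y : Z) (e : Z × Z) :
    PD B e (c * x, y) = PD B e (x, y) := by
  unfold PD
  simp only [B_per hB]
  ring

theorem pd_per22 {c : Z} {v : R} {B : Z → Z → R} (hB : IsB c v B) (x y : Z) (e : Z × Z) :
    PD B e (x, c * y) = PD B e (x, y) := by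
  unfold PD
  simp only [B_per hB]
  ring

/-- the index of an edge -/
def fe {r : ℕ} (i : Fin r) (b : Fin 2) : Fin (r * 2) := finProdFinEquiv (i, b)

theorem fe_val {r : ℕ} (i : Fin r) (b : Fin 2) : (fe i b : ℕ) = b + 2 * i := rfl

theorem fe_inj {r : ℕ} {i i' : Fin r} {b b' : Fin 2} (h : fe i b = fe i' b') : i = i' ∧ b = b' := by
  have h1 := finProdFinEquiv.injective h
  exact ⟨congrArg Prod.fst h1, congrArg Prod.snd h1⟩

/-- the product of the double differences -/
def KK (B : Z → Z → R) (r : ℕ) (e : Fin (r * 2) → Z × Z) : R :=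
  ∏ i : Fin r, PD B (e (fe i 0)) (e (fe i 1))

omit [Group Z] in
theorem KK_update0 (B : Z → Z → R) (r : ℕ) (e : Fin (r * 2) → Z × Z) (a : Fin r) (z : Z × Z) :
    KK B r (Function.update e (fe a 0) z) =
      PD B z (e (fe a 1)) * ∏ i ∈ Finset.univ.erase a, PD B (e (fe i 0)) (e (fe i 1)) := by
  unfold KK
  rw [← Finset.mul_prod_erase _ _ (Finset.mem_univ a)]
  congr 1
  · rw [Function.update_self, Function.update_of_ne]
    intro h
    exact absurd (fe_inj h).2 (by decide)
  · refine Finset.prod_congr rfl fun i hi => ?_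
    have hia : i ≠ a := (Finset.mem_erase.1 hi).1
    rw [Function.update_of_ne (fun h => hia (fe_inj h).1),
      Function.update_of_ne (fun h => hia (fe_inj h).1)]

omit [Group Z] in
theorem KK_update1 (B : Z → Z → R) (r : ℕ) (e : Fin (r * 2) → Z × Z) (a : Fin r) (z : Z × Z) :
    KK B r (Function.update e (fe a 1) z) =
      PD B (e (fe a 0)) z * ∏ i ∈ Finset.univ.erase a, PD B (e (fe i 0)) (e (fe i 1)) := by
  unfold KK
  rw [← Finset.mul_prod_erase _ _ (Finset.mem_univ a)]
  congr 1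
  · rw [Function.update_self, Function.update_of_ne]
    intro h
    exact absurd (fe_inj h).2 (by decide)
  · refine Finset.prod_congr rfl fun i hi => ?_
    have hia : i ≠ a := (Finset.mem_erase.1 hi).1
    rw [Function.update_of_ne (fun h => hia (fe_inj h).1),
      Function.update_of_ne (fun h => hia (fe_inj h).1)]

theorem fe_cases {r : ℕ} {C : Fin (r * 2) → Prop} (h0 : ∀ a, C (fe a 0)) (h1 : ∀ a, C (fe a 1))
    (i : Fin (r * 2)) : C i := by
  obtain ⟨⟨a, b⟩, rfl⟩ := finProdFinEquiv.surjective i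
  match b with
  | 0 => exact h0 a
  | 1 => exact h1 a

theorem edK {c : Z} {v : R} {B : Z → Z → R} (hB : IsB c v B) (r : ℕ) : EdK c (KK B r) := by
  refine ⟨fun e i x y w => ?_, fun w e => ?_, fun e i x y => ?_, fun e i x y => ?_⟩
  · revert i
    refine fe_cases (fun a => ?_) (fun a => ?_)
    · rw [KK_update0, KK_update0, KK_update0, ← add_mul, pd_add1]
    · rw [KK_update1, KK_update1, KK_update1, ← add_mul, pd_add2]
  · unfold KK
    exact Finset.prod_congr rfl fun i _ => pd_inv hB w _ _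
  · revert i
    refine fe_cases (fun a => ?_) (fun a => ?_)
    · rw [KK_update0, KK_update0, pd_per11 hB]
    · rw [KK_update1, KK_update1, pd_per21 hB]
  · revert i
    refine fe_cases (fun a => ?_) (fun a => ?_)
    · rw [KK_update0, KK_update0, pd_per12 hB]
    · rw [KK_update1, KK_update1, pd_per22 hB]

theorem cupE_range {c : Z} {v : R} {B : Z → Z → R} (hB : IsB c v B) : ∀ (r : ℕ) (l : List Z),
    l.length = r * 2 + 1 → cupE (B 1) l = ∏ i ∈ Finset.range r,
      PD B (l.getD (2 * i) 1, l.getD (2 * i + 1) 1) (l.getD (2 * i + 1) 1, l.getD (2 * i + 2) 1)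
  | 0, l, h => by
    match l, h with
    | [x], _ => simp [cupE]
  | r + 1, l, h => by
    match l, h with
    | [], h => simp at h
    | [_], h =>
      simp only [List.length_cons, List.length_nil] at h
      omega
    | [_, _], h =>
      simp only [List.length_cons, List.length_nil] at h
      omega
    | x :: y :: w :: l, h =>
      have h1 := cupE_range hB r (w :: l) (by
        simp only [List.length_cons] at h ⊢
        omega)
      show eu (B 1) x y w * cupE (B 1) (w :: l) = _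
      rw [h1, Finset.prod_range_succ', mul_comm, eu_eq hB]
      rfl

theorem cupE_fin {c : Z} {v : R} {B : Z → Z → R} (hB : IsB c v B) (r : ℕ)
    (x : Fin (r * 2 + 1) → Z) :
    cupE (B 1) (List.ofFn x) = KK B r fun i => (x i.castSucc, x i.succ) := by
  rw [cupE_range hB r (List.ofFn x) (List.length_ofFn), Finset.prod_range]
  unfold KK
  refine Finset.prod_congr rfl fun i _ => ?_
  have hg : ∀ (k : ℕ) (hk : k < r * 2 + 1), (List.ofFn x).getD k 1 = x ⟨k, hk⟩ := by
    intro k hk
    rw [List.getD_eq_getElem _ _ (by rw [List.length_ofFn]; exact hk), List.getElem_ofFn]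
  have hi := i.isLt
  rw [hg (2 * i) (by omega), hg (2 * i + 1) (by omega), hg (2 * i + 2) (by omega)]
  have e0 : (fe i 0).castSucc = (⟨2 * (i : ℕ), by omega⟩ : Fin (r * 2 + 1)) := by
    apply Fin.ext
    show ((fe i 0 : Fin (r * 2)) : ℕ) = 2 * i
    rw [fe_val]
    simp
  have e1 : (fe i 0).succ = (⟨2 * (i : ℕ) + 1, by omega⟩ : Fin (r * 2 + 1)) := by
    apply Fin.ext
    show ((fe i 0 : Fin (r * 2)) : ℕ) + 1 = 2 * i + 1
    rw [fe_val]
    simp
  have e2 : (fe i 1).castSucc = (⟨2 * (i : ℕ) + 1, by omega⟩ : Fin (r * 2 + 1)) := by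
    apply Fin.ext
    show ((fe i 1 : Fin (r * 2)) : ℕ) = 2 * i + 1
    rw [fe_val]
    show 1 + 2 * (i : ℕ) = 2 * i + 1
    omega
  have e3 : (fe i 1).succ = (⟨2 * (i : ℕ) + 2, by omega⟩ : Fin (r * 2 + 1)) := by
    apply Fin.ext
    show ((fe i 1 : Fin (r * 2)) : ℕ) + 1 = 2 * i + 2
    rw [fe_val]
    show 1 + 2 * (i : ℕ) + 1 = 2 * i + 2
    omega
  show _ = PD B (x (fe i 0).castSucc, x (fe i 0).succ) (x (fe i 1).castSucc, x (fe i 1).succ)
  rw [e0, e1, e2, e3]

/-- the permutation of the odd places -/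
def sg {r : ℕ} (π : Equiv.Perm (Fin r)) : Equiv.Perm (Fin (r * 2)) :=
  ((Equiv.prodComm (Fin 2) (Fin r)).trans finProdFinEquiv).permCongr
    (Equiv.Perm.prodExtendRight 1 π)

theorem sign_sg {r : ℕ} (π : Equiv.Perm (Fin r)) : Equiv.Perm.sign (sg π) = Equiv.Perm.sign π := by
  unfold sg
  rw [Equiv.Perm.sign_permCongr, Equiv.Perm.sign_prodExtendRight]

theorem sg_0 {r : ℕ} (π : Equiv.Perm (Fin r)) (i : Fin r) : sg π (fe i 0) = fe i 0 := by
  unfold sg fe
  rw [Equiv.permCongr_apply, Equiv.symm_trans_apply, Equiv.symm_apply_apply]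
  show finProdFinEquiv ((Equiv.prodComm (Fin 2) (Fin r))
    (Equiv.Perm.prodExtendRight 1 π (0, i))) = _
  rw [Equiv.Perm.prodExtendRight_apply_ne (h := by decide)]
  rfl

theorem sg_1 {r : ℕ} (π : Equiv.Perm (Fin r)) (i : Fin r) : sg π (fe i 1) = fe (π i) 1 := by
  unfold sg fe
  rw [Equiv.permCongr_apply, Equiv.symm_trans_apply, Equiv.symm_apply_apply]
  show finProdFinEquiv ((Equiv.prodComm (Fin 2) (Fin r))
    (Equiv.Perm.prodExtendRight 1 π (1, i))) = _
  rw [Equiv.Perm.prodExtendRight_apply_eq]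
  rfl

omit [Group Z] in
theorem sum_zero {B : Z → Z → R} {r : ℕ} {ι : Type} [Fintype ι] (X Y : ι → Z → R)
    (hι : Fintype.card ι < r) (hXY : ∀ w t, B w t = ∑ i, X i w * Y i t)
    (e : Fin (r * 2) → Z × Z) :
    ∑ π : Equiv.Perm (Fin r), ((Equiv.Perm.sign π : ℤ) : R) * KK B r (fun i => e (sg π i)) = 0 := by
  classical
  have h2 := LCORE_aux.det_zero (R := R) (r := r) (ι := ι) hι
    (fun a i => X i (e (fe a 0)).2 - X i (e (fe a 0)).1)
    (fun b i => Y i (e (fe b 1)).2 - Y i (e (fe b 1)).1)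
  rw [← Matrix.det_transpose, Matrix.det_apply'] at h2
  rw [← h2]
  refine Finset.sum_congr rfl fun π _ => ?_
  congr 1
  unfold KK
  refine Finset.prod_congr rfl fun a _ => ?_
  rw [Matrix.transpose_apply, Matrix.of_apply]
  show PD B (e (sg π (fe a 0))) (e (sg π (fe a 1))) = _
  rw [sg_0, sg_1]
  unfold PD
  rw [hXY, hXY, hXY, hXY, ← Finset.sum_sub_distrib, ← Finset.sum_sub_distrib,
    ← Finset.sum_add_distrib]
  exact Finset.sum_congr rfl fun i _ => by ring

omit [Group Z] in
theorem cobL_neg_sum {κ : Type} [Fintype κ] (s : κ → R) (φ : κ → List Z → R) (l : List Z) :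
    cobL (fun m => -∑ π, s π * φ π m) l = -∑ π, s π * cobL (φ π) l := by
  unfold cobL
  simp only [mul_neg, Finset.sum_neg_distrib, Finset.mul_sum]
  rw [Finset.sum_comm]
  congr 1
  exact Finset.sum_congr rfl fun π _ => Finset.sum_congr rfl fun i _ => by ring

end NIL

open NIL

theorem t_NIL (hPRM : S_PRM.{u, v}) : S_NIL.{u, v} := by
  intro Z R _ _ c hc v B hB r ι _ X Y hι hXY
  classical
  choose φ hφ1 hφ2 hφ3 using fun π : Equiv.Perm (Fin (r + 1)) =>
    hPRM Z R c hc ((r + 1) * 2) (KK B (r + 1)) (edK hB (r + 1)) (sg π)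
  refine ⟨fun m => -∑ π, ((Equiv.Perm.sign π : ℤ) : R) * φ π m, ⟨fun w l => ?_, fun a x b => ?_⟩,
    fun a x b => ?_, fun l hl => ?_⟩
  · show -∑ π, _ = -∑ π, _
    congr 1
    exact Finset.sum_congr rfl fun π _ => by rw [(hφ1 π).inv w l]
  · show -∑ π, _ = 0
    rw [neg_eq_zero]
    exact Finset.sum_eq_zero fun π _ => by rw [(hφ1 π).nrm a x b, mul_zero]
  · show -∑ π, _ = -∑ π, _
    congr 1
    exact Finset.sum_congr rfl fun π _ => by rw [hφ2 π a x b]
  · obtain ⟨x, rfl⟩ : ∃ x : Fin ((r + 1) * 2 + 1) → Z, l = List.ofFn x := by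
      refine ⟨fun i => l.get ⟨i, by have := i.isLt; omega⟩, ?_⟩
      apply List.ext_getElem
      · rw [List.length_ofFn]
        omega
      · intro k h1 h2
        rw [List.getElem_ofFn]
        rfl
    rw [cobL_neg_sum, cupE_fin hB (r + 1) x]
    have hz := sum_zero (B := B) X Y (Nat.lt_succ_of_le hι) hXY
      (fun i => (x i.castSucc, x i.succ))
    have h1 : ∀ π : Equiv.Perm (Fin (r + 1)), ((Equiv.Perm.sign π : ℤ) : R) *
        cobL (φ π) (List.ofFn x) = ((Equiv.Perm.sign π : ℤ) : R) *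
          KK B (r + 1) (fun i => (x (sg π i).castSucc, x (sg π i).succ)) -
          KK B (r + 1) (fun i => (x i.castSucc, x i.succ)) := by
      intro π
      rw [hφ3 π x, sign_sg]
      have h3 : ((Equiv.Perm.sign π : ℤ) : R) * ((Equiv.Perm.sign π : ℤ) : R) = 1 := by
        rw [← Int.cast_mul]
        have h4 : ((Equiv.Perm.sign π : ℤ)) * ((Equiv.Perm.sign π : ℤ)) = 1 := by
          rw [← Units.val_mul, Int.units_mul_self, Units.val_one]
        rw [h4, Int.cast_one]
      rw [zsmul_eq_mul, mul_sub, ← mul_assoc, h3, one_mul]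
    rw [Finset.sum_congr rfl fun π _ => h1 π, Finset.sum_sub_distrib]
    have hz' : ∑ π : Equiv.Perm (Fin (r + 1)), ((Equiv.Perm.sign π : ℤ) : R) *
        KK B (r + 1) (fun i => (x (sg π i).castSucc, x (sg π i).succ)) = 0 := hz
    rw [hz', zero_sub, neg_neg, Finset.sum_const, Finset.card_univ, Fintype.card_perm,
      Fintype.card_fin, nsmul_eq_mul]

end Pool.Agent.SM4
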