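import Pool.Agent.SM4.St

/-!
# SM4, module NRM: normalisation of homogeneous cochains
-/

set_option autoImplicit false

open Pool.Agent.SUR

noncomputable section

namespace Pool.Agent.SM4

universe u v

namespace NRM

section

variable {Z R : Type*} [CommRing R]

theorem cobL_nil (φ : List Z → R) : cobL φ [] = 0 := by
  unfold cobL
  simp

/-- the coboundary depends on the values on the faces only -/
theorem cobL_congr {φ ψ : List Z → R} {l : List Z}
    (h : ∀ m, m.length + 1 = l.length → φ m = ψ m) : cobL φ l = cobL ψ l := by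
  unfold cobL
  refine Finset.sum_congr rfl fun i hi => ?_
  rw [Finset.mem_range] at hi
  rw [h]
  rw [List.length_eraseIdx, if_pos hi]
  omega

theorem cobL_zero {φ : List Z → R} {l : List Z}
    (h : ∀ m, m.length + 1 = l.length → φ m = 0) : cobL φ l = 0 := by
  rw [cobL_congr (ψ := fun _ => 0) h]
  unfold cobL
  simp

theorem cobL_sub (φ ψ : List Z → R) (l : List Z) :
    cobL (fun m => φ m - ψ m) l = cobL φ l - cobL ψ l := by
  unfold cobL
  rw [← Finset.sum_sub_distrib]
  exact Finset.sum_congr rfl fun i _ => by ring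

theorem cobL_cobL (l : List Z) : ∀ φ : List Z → R, cobL (fun m => cobL φ m) l = 0 := by
  induction l with
  | nil => exact fun φ => cobL_nil _
  | cons x l ih =>
    intro φ
    rw [cobL_cons]
    simp only [cobL_cons]
    rw [cobL_sub, ih]
    have e : cobL (fun l' => φ l') l = cobL φ l := rfl
    rw [e]
    ring

theorem cobL_append (a : List Z) : ∀ (φ : List Z → R) (b : List Z), cobL φ (a ++ b) =
    cobL (fun m => φ (m ++ b)) a + (-1) ^ a.length * cobL (fun m => φ (a ++ m)) b := by
  induction a with
  | nil =>
    intro φ b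
    rw [cobL_nil]
    simp
  | cons x a ih =>
    intro φ b
    rw [List.cons_append, cobL_cons, cobL_cons, ih, List.length_cons, pow_succ]
    simp only [List.cons_append]
    ring

/-- the coboundary of a list with a doubled point -/
theorem cobL_two (φ : List Z → R) (a b : List Z) (x : Z) : cobL φ (a ++ x :: x :: b) =
    cobL (fun m => φ (m ++ x :: x :: b)) a +
      (-1) ^ a.length * cobL (fun m => φ (a ++ x :: x :: m)) b := by
  rw [cobL_append, cobL_cons, cobL_cons]
  ring

/-- the coboundary of a list with a tripled point -/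
theorem cobL_three (φ : List Z → R) (a b : List Z) (x : Z) : cobL φ (a ++ x :: x :: x :: b) =
    cobL (fun m => φ (m ++ x :: x :: x :: b)) a +
      (-1) ^ a.length * (φ (a ++ x :: x :: b) - cobL (fun m => φ (a ++ x :: x :: x :: m)) b) := by
  rw [cobL_append, cobL_cons, cobL_cons, cobL_cons]
  ring

end

theorem cobL_inv {Z R : Type*} [Mul Z] [CommRing R] {φ : List Z → R} (h : Inv φ) :
    Inv (fun l => cobL φ l) := by
  intro w l
  show cobL φ (l.map fun x => w * x) = cobL φ l
  unfold cobL
  rw [List.length_map]
  refine Finset.sum_congr rfl fun i _ => ?_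
  rw [List.eraseIdx_map, h]

/-! ### doubling of a point -/

theorem dbl_length {E : Type*} : ∀ (i : ℕ) (l : List E), i < l.length →
    (dbl i l).length = l.length + 1
  | _, [], h => absurd h (Nat.not_lt_zero _)
  | 0, e :: L, _ => rfl
  | i + 1, e :: L, h => by
    show (e :: dbl i L).length = _
    rw [List.length_cons, dbl_length i L (by simpa using h), List.length_cons]

theorem dbl_map {E F : Type*} (t : E → F) : ∀ (i : ℕ) (l : List E),
    dbl i (l.map t) = (dbl i l).map t
  | 0, [] => rfl
  | _ + 1, [] => rfl
  | 0, e :: L => rfl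
  | i + 1, e :: L => by
    show t e :: dbl i (L.map t) = (e :: dbl i L).map t
    rw [dbl_map t i L]
    rfl

/-- doubling the entry after `a` -/
theorem dbl_at {E : Type*} : ∀ (a : List E) (x : E) (b : List E),
    dbl a.length (a ++ x :: b) = a ++ x :: x :: b
  | [], _, _ => rfl
  | e :: a, x, b => by
    show e :: dbl a.length (a ++ x :: b) = _
    rw [dbl_at a x b]
    rfl

/-- doubling a later entry preserves a doubled entry -/
theorem dbl_later {E : Type*} : ∀ (i : ℕ) (a : List E) (x : E) (b : List E), a.length < i →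
    ∃ b', dbl i (a ++ x :: x :: b) = a ++ x :: x :: b'
  | 0, _, _, _, h => absurd h (Nat.not_lt_zero _)
  | 1, [], x, b, _ => ⟨x :: b, rfl⟩
  | i + 2, [], x, b, _ => ⟨dbl i b, rfl⟩
  | i + 1, e :: a, x, b, h => by
    obtain ⟨b', hb'⟩ := dbl_later i a x b (by simpa using h)
    refine ⟨b', ?_⟩
    show e :: dbl i (a ++ x :: x :: b) = _
    rw [hb']
    rfl

/-- `φ` vanishes on the lists of length `n + 1` with a doubled entry with a number below `i` -/
def Van {Z R : Type*} [Zero R] (n i : ℕ) (φ : List Z → R) : Prop :=
  ∀ (a : List Z) (x : Z) (b : List Z), a.length < i → a.length + b.length + 2 = n + 1 →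
    φ (a ++ x :: x :: b) = 0

/-- vanishing of the homotopy -/
theorem van_h {Z R : Type*} [CommRing R] {n i : ℕ} {φ : List Z → R} (hφ : Van n i φ) (hi : i < n)
    (c : R) (a : List Z) (x : Z) (b : List Z) (ha : a.length < i) (hl : a.length + b.length + 2 = n) :
    c * φ (dbl i (a ++ x :: x :: b)) = 0 := by
  obtain ⟨b', hb'⟩ := dbl_later i a x b ha
  have h1 := dbl_length i (a ++ x :: x :: b) (by simp; omega)
  rw [hb'] at h1
  simp only [List.length_append, List.length_cons] at h1
  rw [hb', hφ a x b' ha (by omega), mul_zero]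

/-- one step of the induction -/
theorem step {Z R : Type*} [CommRing R] {n i : ℕ} {f φ : List Z → R} (hf : Nrm f)
    (hφ : ∀ l, l.length = n + 2 → cobL φ l = f l) (hV : Van n i φ) (hi : i < n) :
    Van n (i + 1) (fun l => φ l - cobL (fun m => (-1) ^ i * φ (dbl i m)) l) := by
  intro a x b ha hl
  show φ (a ++ x :: x :: b) - cobL (fun m => (-1) ^ i * φ (dbl i m)) (a ++ x :: x :: b) = 0
  rw [cobL_two]
  have h1 : cobL (fun m => (-1) ^ i * φ (dbl i (m ++ x :: x :: b))) a = 0 := by
    refine cobL_zero fun m hm => ?_
    exact van_h hV hi _ m x b (by omega) (by omega)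
  rw [h1, zero_add]
  rcases Nat.lt_succ_iff_lt_or_eq.1 ha with h | h
  · rw [hV a x b h hl, cobL_zero, mul_zero, sub_zero]
    intro m hm
    exact van_h hV hi _ a x m h (by omega)
  · have h2 := hφ (a ++ x :: x :: x :: b) (by simp; omega)
    rw [hf a x (x :: b), cobL_three, cobL_zero, zero_add] at h2
    · have h3 : cobL (fun m => (-1) ^ i * φ (dbl i (a ++ x :: x :: m))) b =
          (-1) ^ i * cobL (fun m => φ (a ++ x :: x :: x :: m)) b := by
        rw [← cobL_smul]
        refine cobL_congr fun m _ => ?_
        rw [← h, dbl_at]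
      rw [h3, h, ← mul_assoc, ← pow_add, ← two_mul, pow_mul]
      rw [h] at h2
      have h4 : ((-1 : R) ^ 2) ^ i = 1 := by
        rw [neg_one_sq, one_pow]
      have h5 : ((-1 : R)) ^ i * (-1) ^ i = 1 := by
        rw [← pow_add, ← two_mul, pow_mul, h4]
      rw [h4, one_mul]
      have h6 := congrArg (fun z => (-1 : R) ^ i * z) h2
      simp only [mul_zero] at h6
      rw [← mul_assoc, h5, one_mul] at h6
      exact h6
    · intro m hm
      exact hV m x (x :: b) (by omega) (by simp; omega)

end NRM

open NRM in
/-- NRM -/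
theorem t_NRM : S_NRM.{u, v} := by
  intro Z R _ _ n f g hf hg hfg
  have key : ∀ i ≤ n, ∃ φ : List Z → R, Inv φ ∧ (∀ l, l.length = n + 2 → cobL φ l = f l) ∧
      Van n i φ := by
    intro i
    induction i with
    | zero => exact fun _ => ⟨g, hg, hfg, fun a x b h => absurd h (Nat.not_lt_zero _)⟩
    | succ i ih =>
      intro hi
      obtain ⟨φ, h1, h2, h3⟩ := ih (by omega)
      refine ⟨fun l => φ l - cobL (fun m => (-1) ^ i * φ (dbl i m)) l, ?_, ?_,
        step hf.nrm h2 h3 (by omega)⟩
      · have h4 : Inv (fun m => (-1 : R) ^ i * φ (dbl i m)) := by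
          intro w l
          show (-1 : R) ^ i * φ (dbl i (l.map fun x => w * x)) = (-1) ^ i * φ (dbl i l)
          rw [dbl_map, h1]
        intro w l
        have h5 := cobL_inv h4 w l
        show φ (l.map fun x => w * x) - cobL (fun m => (-1) ^ i * φ (dbl i m)) (l.map fun x => w * x)
          = φ l - cobL (fun m => (-1) ^ i * φ (dbl i m)) l
        rw [h1 w l]
        exact congrArg (fun z => φ l - z) h5
      · intro l hl
        rw [cobL_sub, cobL_cobL, sub_zero]
        exact h2 l hl
  obtain ⟨φ, h1, h2, h3⟩ := key n le_rfl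
  refine ⟨fun l => if l.length = n + 1 then φ l else 0, ⟨?_, ?_⟩, ?_⟩
  · intro w l
    show (if (l.map fun x => w * x).length = n + 1 then φ (l.map fun x => w * x) else 0) =
      if l.length = n + 1 then φ l else 0
    rw [List.length_map, h1]
  · intro a x b
    show (if (a ++ x :: x :: b).length = n + 1 then φ (a ++ x :: x :: b) else 0) = 0
    split_ifs with h
    · simp only [List.length_append, List.length_cons] at h
      exact h3 a x b (by omega) (by omega)
    · rfl
  · intro l hl
    rw [← h2 l hl]
    refine cobL_congr fun m hm => ?_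
    rw [if_pos (by omega)]

end Pool.Agent.SM4
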