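import Pool.Agent.SM4.St

/-!
# SM4_PRM (helper49): permutations of the edges, proof of `S_PRM`
-/

set_option autoImplicit false

open Pool.Agent.SUR

noncomputable section

namespace Pool.Agent.SM4

universe u v

namespace PRM

set_option linter.unusedSectionVars false

variable {Z : Type u} {R : Type v} [Group Z] [CommRing R]

/-- A function of `n` edges as a function of lists. -/
def KL {n : ℕ} (K : (Fin n → Z × Z) → R) (L : List (Z × Z)) : R :=
  if h : L.length = n then K (fun i => L[(i : ℕ)]'(by rw [h]; exact i.2)) else 0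

theorem KL_of {n : ℕ} (K : (Fin n → Z × Z) → R) (L : List (Z × Z)) (f : Fin n → Z × Z)
    (h : L.length = n) (hf : ∀ i : Fin n, L[(i : ℕ)]? = some (f i)) : KL K L = K f := by
  unfold KL
  rw [dif_pos h]
  congr 1
  funext i
  have h1 := hf i
  rw [List.getElem?_eq_getElem (by rw [h]; exact i.2)] at h1
  exact Option.some.inj h1

theorem KL_slot {n : ℕ} (K : (Fin n → Z × Z) → R) (a b : List (Z × Z)) :
    (∀ e, KL K (a ++ e :: b) = 0) ∨ ∃ (f : Fin n → Z × Z) (j : Fin n), ∀ e,
      KL K (a ++ e :: b) = K (Function.update f j e) := by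
  by_cases h : a.length + (b.length + 1) = n
  · right
    subst h
    refine ⟨fun i => (a ++ (1, 1) :: b)[(i : ℕ)]'(by
      have := i.2
      simp only [List.length_append, List.length_cons]
      omega), ⟨a.length, by omega⟩, fun e => ?_⟩
    refine KL_of K _ _ (by simp) fun i => ?_
    by_cases hi : i = ⟨a.length, by omega⟩
    · subst hi
      rw [Function.update_self]
      simp
    · rw [Function.update_of_ne hi]
      have h1 : (i : ℕ) ≠ a.length := fun h => hi (Fin.ext h)
      have h2 := i.2
      rw [← List.getElem?_eq_getElem]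
      rcases lt_or_gt_of_ne h1 with h3 | h3
      · rw [List.getElem?_append_left h3, List.getElem?_append_left h3]
      · rw [List.getElem?_append_right h3.le, List.getElem?_append_right h3.le]
        obtain ⟨k, hk⟩ : ∃ k, (i : ℕ) - a.length = k + 1 := ⟨(i : ℕ) - a.length - 1, by omega⟩
        rw [hk]
        simp
  · left
    intro e
    unfold KL
    rw [dif_neg (by simpa using h)]

theorem KL_ea {n : ℕ} {c : Z} {K : (Fin n → Z × Z) → R} (hK : EdK c K) : EA (KL K) := by
  intro a x y w b
  rcases KL_slot K a b with h | ⟨f, j, h⟩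
  · rw [h, h, h, add_zero]
  · rw [h, h, h, hK.add]

/-- the end points agree up to `c` -/
def Eq1 (c : Z) (u u' : Z) : Prop := u = u' ∨ u = c * u'

def Eq2 (c : Z) (e e' : Z × Z) : Prop := Eq1 c e.1 e'.1 ∧ Eq1 c e.2 e'.2

theorem eq1_refl (c u : Z) : Eq1 c u u := Or.inl rfl

theorem KL_one {n : ℕ} {c : Z} {K : (Fin n → Z × Z) → R} (hK : EdK c K) (a b : List (Z × Z))
    {e e' : Z × Z} (h : Eq2 c e e') : KL K (a ++ e :: b) = KL K (a ++ e' :: b) := by
  obtain ⟨x, y⟩ := e
  obtain ⟨x', y'⟩ := e'
  obtain ⟨h1, h2⟩ := h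
  simp only at h1 h2
  rcases KL_slot K a b with h | ⟨f, j, h⟩
  · rw [h, h]
  · rw [h, h]
    rcases h1 with rfl | rfl <;> rcases h2 with rfl | rfl
    · rfl
    · rw [hK.per2]
    · rw [hK.per1]
    · rw [hK.per1, hK.per2]

theorem KL_per {n : ℕ} {c : Z} {K : (Fin n → Z × Z) → R} (hK : EdK c K) {L L' : List (Z × Z)}
    (h : List.Forall₂ (Eq2 c) L L') : ∀ a, KL K (a ++ L) = KL K (a ++ L') := by
  induction h with
  | nil => exact fun _ => rfl
  | @cons e e' l l' he _ ih =>
    intro a
    rw [KL_one hK a l he]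
    have := ih (a ++ [e'])
    simpa using this

theorem edg_per {c : Z} {l l' : List Z} (h : List.Forall₂ (Eq1 c) l l') :
    List.Forall₂ (Eq2 c) (edg l) (edg l') := by
  induction h with
  | nil => exact List.Forall₂.nil
  | @cons e e' m m' he hm ih =>
    cases hm with
    | nil => exact List.Forall₂.nil
    | cons hf hm' => exact List.Forall₂.cons ⟨he, hf⟩ ih

theorem dbl_per {E : Type u} {P : E → E → Prop} : ∀ (i : ℕ) {L L' : List E},
    List.Forall₂ P L L' → List.Forall₂ P (dbl i L) (dbl i L')
  | i, _, _, List.Forall₂.nil => by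
    cases i <;> exact List.Forall₂.nil
  | 0, _, _, List.Forall₂.cons h h' => List.Forall₂.cons h (List.Forall₂.cons h h')
  | i + 1, _, _, List.Forall₂.cons h h' => List.Forall₂.cons h (dbl_per i h')

theorem app_per {c x : Z} (a b : List Z) :
    List.Forall₂ (Eq1 c) (a ++ c * x :: b) (a ++ x :: b) := by
  induction a with
  | nil =>
    refine List.Forall₂.cons (Or.inr rfl) ?_
    exact List.forall₂_same.2 fun y _ => eq1_refl c y
  | cons y a ih => exact List.Forall₂.cons (eq1_refl c y) ih

theorem edg_map {Z' : Type u} (f : Z → Z') : ∀ l : List Z,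
    edg (l.map f) = (edg l).map (Prod.map f f)
  | [] => rfl
  | [_] => rfl
  | x :: y :: l => by
    have ih := edg_map f (y :: l)
    simp only [List.map_cons] at ih
    simp only [List.map_cons, edg, Prod.map_apply]
    rw [ih]

theorem dbl_map {E E' : Type u} (g : E → E') : ∀ (i : ℕ) (L : List E),
    dbl i (L.map g) = (dbl i L).map g
  | 0, [] => rfl
  | 0, _ :: _ => rfl
  | _ + 1, [] => rfl
  | i + 1, e :: L => by
    simp only [List.map_cons, dbl]
    rw [dbl_map g i L]

theorem KL_inv {n : ℕ} {c : Z} {K : (Fin n → Z × Z) → R} (hK : EdK c K) (w : Z)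
    (L : List (Z × Z)) : KL K (L.map (Prod.map (fun x => w * x) fun x => w * x)) = KL K L := by
  by_cases h : L.length = n
  · subst h
    rw [KL_of K L (fun i => L[(i : ℕ)]) rfl (fun i => List.getElem?_eq_getElem i.2)]
    rw [← hK.inv w]
    refine KL_of K _ _ (by simp) fun i => ?_
    rw [List.getElem?_map, List.getElem?_eq_getElem i.2]
    rfl
  · unfold KL
    rw [dif_neg h, dif_neg (by simpa using h)]

theorem KL_nrm {n : ℕ} {c : Z} {K : (Fin n → Z × Z) → R} (hK : EdK c K) {x : Z}
    {L : List (Z × Z)} (h : (x, x) ∈ L) : KL K L = 0 := by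
  obtain ⟨a, b, rfl⟩ := List.append_of_mem h
  have := KL_ea hK a x x x b
  simpa using this

theorem mem_dbl {E : Type u} {e : E} : ∀ (i : ℕ) {L : List E}, e ∈ L → e ∈ dbl i L
  | 0, _ :: L, h => by
    simp only [dbl, List.mem_cons] at h ⊢
    tauto
  | i + 1, e' :: L, h => by
    simp only [dbl, List.mem_cons] at h ⊢
    exact h.imp id fun h' => mem_dbl i h'

theorem mem_edg {x : Z} (b : List Z) : ∀ a : List Z, (x, x) ∈ edg (a ++ x :: x :: b)
  | [] => List.mem_cons_self
  | [_] => List.mem_cons_of_mem _ List.mem_cons_self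
  | _ :: z :: a => List.mem_cons_of_mem _ (mem_edg b (z :: a))

theorem length_edg : ∀ l : List Z, (edg l).length = l.length - 1
  | [] => rfl
  | [_] => rfl
  | x :: y :: l => by
    have := length_edg (y :: l)
    simp only [edg, List.length_cons] at this ⊢
    omega

theorem getElem?_edg : ∀ (l : List Z) (j : ℕ) (u w : Z), l[j]? = some u → l[j + 1]? = some w →
    (edg l)[j]? = some (u, w)
  | [], j, u, w, h, _ => by simp at h
  | [_], j, u, w, _, h => by simp at h
  | x :: y :: l, 0, u, w, h, h' => by
    simp only [List.getElem?_cons_zero, List.getElem?_cons_succ, Option.some.injEq] at h h'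
    subst h
    subst h'
    rfl
  | x :: y :: l, j + 1, u, w, h, h' => by
    simp only [edg, List.getElem?_cons_succ] at h h' ⊢
    refine getElem?_edg (y :: l) j u w h ?_
    simpa using h'

theorem length_swp {E : Type u} : ∀ (i : ℕ) (L : List E), (swp i L).length = L.length
  | 0, [] => rfl
  | 0, [_] => rfl
  | 0, _ :: _ :: _ => rfl
  | _ + 1, [] => rfl
  | i + 1, e :: L => by
    simp only [swp, List.length_cons]
    rw [length_swp i L]

theorem getElem?_swp {E : Type u} : ∀ (i : ℕ) (L : List E), i + 1 < L.length → ∀ j : ℕ,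
    (swp i L)[j]? = L[if j = i then i + 1 else if j = i + 1 then i else j]?
  | 0, [], h, _ => by simp at h
  | 0, [_], h, _ => by simp at h
  | 0, e :: e' :: L, _, j => by
    rcases j with _ | _ | j
    · simp [swp]
    · simp [swp]
    · simp [swp]
  | i + 1, [], h, _ => by simp at h
  | i + 1, e :: L, h, j => by
    have ih := getElem?_swp i L (by simpa using h)
    rcases j with _ | j
    · simp [swp]
    · simp only [swp, List.getElem?_cons_succ]
      rw [ih j]
      by_cases h1 : j = i
      · subst h1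
        simp
      · by_cases h2 : j = i + 1
        · subst h2
          simp
        · rw [if_neg h1, if_neg h2, if_neg (by omega), if_neg (by omega)]
          simp

/-- The functions of `n` edges which come from coboundaries. -/
def Bd (c : Z) (n : ℕ) (H : (Fin n → Z × Z) → R) : Prop :=
  ∃ φ : List Z → R, IsC φ ∧ Per c φ ∧ ∀ x : Fin (n + 1) → Z,
    cobL φ (List.ofFn x) = H (fun i => (x i.castSucc, x i.succ))

theorem cobL_sub' (φ ψ : List Z → R) (l : List Z) :
    cobL (fun m => φ m - ψ m) l = cobL φ l - cobL ψ l := by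
  unfold cobL
  rw [← Finset.sum_sub_distrib]
  exact Finset.sum_congr rfl fun i _ => by ring

theorem cobL_mul' (a : R) (φ : List Z → R) (l : List Z) :
    cobL (fun m => a * φ m) l = a * cobL φ l := by
  unfold cobL
  rw [Finset.mul_sum]
  exact Finset.sum_congr rfl fun i _ => by ring

theorem Bd.sub {c : Z} {n : ℕ} {H H' : (Fin n → Z × Z) → R} (h : Bd c n H) (h' : Bd c n H') :
    Bd c n (fun e => H e - H' e) := by
  obtain ⟨φ, h1, h2, h3⟩ := h
  obtain ⟨ψ, g1, g2, g3⟩ := h'
  refine ⟨fun m => φ m - ψ m, ⟨fun w l => ?_, fun a x b => ?_⟩, fun a x b => ?_, fun x => ?_⟩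
  · rw [h1.inv, g1.inv]
  · rw [h1.nrm, g1.nrm, sub_zero]
  · simp only
    rw [h2, g2]
  · rw [cobL_sub', h3, g3]

theorem Bd.zero {c : Z} {n : ℕ} : Bd c n (fun _ : Fin n → Z × Z => (0 : R)) :=
  ⟨fun _ => 0, ⟨fun _ _ => rfl, fun _ _ _ => rfl⟩, fun _ _ _ => rfl, fun x => by
    simp [cobL]⟩

theorem edk_comp {c : Z} {n : ℕ} {K : (Fin n → Z × Z) → R} (hK : EdK c K)
    (σ : Equiv.Perm (Fin n)) : EdK c (fun e => K (e ∘ σ)) where
  add e i x y w := by
    simp only [Function.update_comp_equiv]
    exact hK.add _ _ _ _ _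
  inv w e := hK.inv w (e ∘ σ)
  per1 e i x y := by
    simp only [Function.update_comp_equiv]
    exact hK.per1 _ _ _ _
  per2 e i x y := by
    simp only [Function.update_comp_equiv]
    exact hK.per2 _ _ _ _

theorem bd_swap (hS : S_SWP.{u, v}) {c : Z} {m : ℕ} {K : (Fin (m + 1) → Z × Z) → R}
    (hK : EdK c K) (i : Fin m) :
    Bd c (m + 1) (fun e => K e + K (e ∘ Equiv.swap i.castSucc i.succ)) := by
  refine ⟨fun l => (-1) ^ ((i : ℕ) + 1) * KL K (dbl i (edg l)), ⟨fun w l => ?_, fun a x b => ?_⟩,
    fun a x b => ?_, fun x => ?_⟩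
  · rw [edg_map, dbl_map, KL_inv hK]
  · rw [KL_nrm hK (mem_dbl _ (mem_edg b a)), mul_zero]
  · simp only
    have := KL_per hK (dbl_per (i : ℕ) (edg_per (app_per (c := c) (x := x) a b))) []
    simp only [List.nil_append] at this
    rw [this]
  · have hi := i.2
    rw [cobL_mul', hS Z R (KL K) (KL_ea hK) i (List.ofFn x) (by rw [List.length_ofFn]; omega),
      ← mul_assoc, ← pow_add, ← two_mul, pow_mul]
    have hl : (edg (List.ofFn x)).length = m + 1 := by
      rw [length_edg, List.length_ofFn]
      omega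
    have he : ∀ j : Fin (m + 1), (edg (List.ofFn x))[(j : ℕ)]? = some (x j.castSucc, x j.succ) := by
      intro j
      have hj := j.2
      refine getElem?_edg _ _ _ _ ?_ ?_
      · rw [List.getElem?_ofFn, dif_pos (by omega)]
        rfl
      · rw [List.getElem?_ofFn, dif_pos (by omega)]
        rfl
    have h1 : KL K (edg (List.ofFn x)) = K (fun j => (x j.castSucc, x j.succ)) :=
      KL_of K _ _ hl he
    have h2 : KL K (swp i (edg (List.ofFn x))) =
        K ((fun j : Fin (m + 1) => (x j.castSucc, x j.succ)) ∘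
          Equiv.swap i.castSucc i.succ) := by
      refine KL_of K _ _ (by rw [length_swp, hl]) fun j => ?_
      rw [getElem?_swp _ _ (by rw [hl]; omega)]
      by_cases h3 : j = i.castSucc
      · subst h3
        rw [Function.comp_apply, Equiv.swap_apply_left, if_pos (by simp)]
        have := he i.succ
        simpa using this
      · by_cases h4 : j = i.succ
        · subst h4
          rw [Function.comp_apply, Equiv.swap_apply_right, if_neg (by simp), if_pos (by simp)]
          have := he i.castSucc
          simpa using this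
        · rw [Function.comp_apply, Equiv.swap_apply_of_ne_of_ne h3 h4,
            if_neg (fun h => h3 (Fin.ext (by simpa using h))),
            if_neg (fun h => h4 (Fin.ext (by simpa using h)))]
          exact he j
    rw [h1, h2]
    simp

theorem bd_perm (hS : S_SWP.{u, v}) {c : Z} {n : ℕ} {K : (Fin n → Z × Z) → R}
    (hK : EdK c K) (σ : Equiv.Perm (Fin n)) :
    Bd c n (fun e => K (e ∘ σ) - (Equiv.Perm.sign σ : ℤ) • K e) := by
  rcases n with _ | m
  · have h1 : σ = 1 := Subsingleton.elim _ _
    subst h1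
    have h2 : (fun e : Fin 0 → Z × Z => K (e ∘ (1 : Equiv.Perm (Fin 0))) -
        (Equiv.Perm.sign (1 : Equiv.Perm (Fin 0)) : ℤ) • K e) = fun _ => 0 := by
      funext e
      simp
    rw [h2]
    exact Bd.zero
  · have h1 : σ ∈ Submonoid.closure
        (Set.range fun i : Fin m => Equiv.swap i.castSucc i.succ) := by
      rw [Equiv.Perm.mclosure_swap_castSucc_succ]
      exact Submonoid.mem_top σ
    induction h1 using Submonoid.closure_induction_left with
    | one =>
      have h2 : (fun e : Fin (m + 1) → Z × Z => K (e ∘ (1 : Equiv.Perm (Fin (m + 1)))) -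
          (Equiv.Perm.sign (1 : Equiv.Perm (Fin (m + 1))) : ℤ) • K e) = fun _ => 0 := by
        funext e
        simp
      rw [h2]
      exact Bd.zero
    | mul_left τ hτ σ _ ih =>
      obtain ⟨i, rfl⟩ := hτ
      have h2 := (bd_swap hS (edk_comp hK σ) i).sub ih
      refine (congrArg (Bd c (m + 1)) ?_).mp h2
      funext e
      have h3 : Equiv.Perm.sign (Equiv.swap i.castSucc i.succ * σ) = - Equiv.Perm.sign σ := by
        rw [Equiv.Perm.sign_mul, Equiv.Perm.sign_swap (Fin.castSucc_lt_succ).ne, neg_one_mul]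
      simp only
      rw [h3]
      have h4 : e ∘ ⇑(Equiv.swap i.castSucc i.succ * σ) =
          (e ∘ ⇑(Equiv.swap i.castSucc i.succ)) ∘ ⇑σ := rfl
      rw [h4, Units.val_neg, neg_smul]
      ring

end PRM

theorem t_PRM (hSWP : S_SWP.{u, v}) : S_PRM.{u, v} := by
  intro Z R _ _ c _ n K hK σ
  exact PRM.bd_perm hSWP hK σ

end Pool.Agent.SM4
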