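import Pool.Agent.SM4.St

/-!
# SM4, module RED (helper48): reduction of the number of cochains
-/

set_option autoImplicit false
set_option linter.unusedSectionVars false

open Pool.Agent.SUR

noncomputable section

namespace Pool.Agent.SM4

universe u v

namespace RED

variable {Z : Type u} {R : Type v}

section Lin

variable [Group Z] [CommRing R] (c : Z)

theorem ins_cons (f : List Z → R) (x : Z) (l : List Z) :
    ins c f (x :: l) = f (x :: c * x :: l.map fun y => c * y) - ins c (fun m => f (x :: m)) l := rfl

theorem ins_nil (f : List Z → R) : ins c f [] = 0 := rfl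

theorem ins_zero (l : List Z) : ins c (fun _ => (0 : R)) l = 0 := by
  induction l with
  | nil => rfl
  | cons x l ih => rw [ins_cons, ih, sub_zero]

theorem ins_sub (f g : List Z → R) (l : List Z) :
    ins c (fun m => f m - g m) l = ins c f l - ins c g l := by
  induction l generalizing f g with
  | nil => simp [ins_nil]
  | cons x l ih =>
    rw [ins_cons, ins_cons, ins_cons, ih]
    ring

theorem ins_smul (a : R) (f : List Z → R) (l : List Z) :
    ins c (fun m => a * f m) l = a * ins c f l := by
  induction l generalizing f with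
  | nil => simp [ins_nil]
  | cons x l ih =>
    rw [ins_cons, ins_cons, ih]
    ring

theorem ins_congr (f g : List Z → R) (l : List Z)
    (h : ∀ m : List Z, m.length = l.length + 1 → f m = g m) : ins c f l = ins c g l := by
  induction l generalizing f g with
  | nil => rfl
  | cons x l ih =>
    rw [ins_cons, ins_cons, h _ (by simp), ih]
    intro m hm
    apply h
    simp [hm]

theorem cobL_sub (f g : List Z → R) (l : List Z) :
    cobL (fun m => f m - g m) l = cobL f l - cobL g l := by
  unfold cobL
  rw [← Finset.sum_sub_distrib]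
  exact Finset.sum_congr rfl fun i _ => by ring

theorem cobL_nil (f : List Z → R) : cobL f [] = 0 := by
  simp [cobL]

theorem cobL_zero (l : List Z) : cobL (fun _ => (0 : R)) l = 0 := by
  simp [cobL]

/-- naturality of the coboundary -/
theorem cobL_map (f : List Z → R) (w : Z) (l : List Z) :
    cobL f (l.map fun y => w * y) = cobL (fun m => f (m.map fun y => w * y)) l := by
  induction l generalizing f with
  | nil => simp [cobL_nil]
  | cons x l ih =>
    rw [List.map_cons, cobL_cons, cobL_cons, ih]
    simp only [List.map_cons]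

theorem ins_map (f : List Z → R) (w : Z) (hw : c * w = w * c) (l : List Z) :
    ins c f (l.map fun y => w * y) = ins c (fun m => f (m.map fun y => w * y)) l := by
  induction l generalizing f with
  | nil => rfl
  | cons x l ih =>
    rw [List.map_cons, ins_cons, ins_cons, ih]
    simp only [List.map_cons, List.map_map]
    have h1 : ∀ y, c * (w * y) = w * (c * y) := fun y => by
      rw [← mul_assoc, hw, mul_assoc]
    congr 2
    rw [h1]
    congr 2
    apply List.map_congr_left
    intro y _
    exact h1 y

/-- (a) -/
theorem cobL_ins (f : List Z → R) (l : List Z) :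
    cobL (ins c f) l + ins c (cobL f) l = f (l.map fun y => c * y) - f l := by
  induction l generalizing f with
  | nil => simp [cobL_nil, ins_nil]
  | cons x l ih =>
    have h1 : cobL (fun m => ins c f (x :: m)) l =
        cobL (fun m => f (x :: c * x :: m.map fun y => c * y)) l -
          cobL (ins c fun m => f (x :: m)) l := by
      rw [← cobL_sub]
      rfl
    have h2 : ins c (fun m => cobL f (x :: m)) l =
        ins c f l - ins c (cobL fun m => f (x :: m)) l := by
      rw [← ins_sub]
      congr 1
      ext m
      rw [cobL_cons]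
    have h3 := cobL_map (fun m => f (x :: c * x :: m)) c l
    rw [cobL_cons, ins_cons, h1, h2, cobL_cons, cobL_cons, h3, List.map_cons]
    have h4 := ih fun m => f (x :: m)
    linear_combination h4

/-- (b) -/
theorem ins_ins (f : List Z → R) (l : List Z) : ins c (ins c f) l = 0 := by
  induction l generalizing f with
  | nil => rfl
  | cons x l ih =>
    have h1 : ins c (fun m => ins c f (x :: m)) l =
        ins c (fun m => f (x :: c * x :: m.map fun y => c * y)) l -
          ins c (ins c fun m => f (x :: m)) l := by
      rw [← ins_sub]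
      rfl
    have h2 := ins_map c (fun m => f (x :: c * x :: m)) c rfl l
    rw [ins_cons, h1, ins_cons, ins_cons, h2, ih, List.map_cons]
    ring

/-- (c), invariance -/
theorem inv_ins (hc : ∀ z, c * z = z * c) {f : List Z → R} (hf : Inv f) : Inv (ins c f) := by
  intro w l
  rw [ins_map c f w (hc w)]
  congr 1
  ext m
  exact hf w m

/-- (c), normalisation -/
theorem nrm_ins {f : List Z → R} (hf : Nrm f) : Nrm (ins c f) := by
  intro a
  induction a generalizing f with
  | nil =>
    intro x b
    have h0 : (fun m => f (x :: x :: m)) = fun _ => (0 : R) := by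
      ext m
      exact hf [] x m
    rw [List.nil_append, ins_cons, ins_cons, h0, ins_zero]
    have h1 := hf [x] (c * x) (b.map fun y => c * y)
    have h2 := hf [] x (c * x :: b.map fun y => c * y)
    rw [List.map_cons]
    simp only [List.cons_append, List.nil_append] at h1 h2
    rw [h1, h2]
    ring
  | cons y a ih =>
    intro x b
    have h1 := hf (y :: c * y :: a.map fun y => c * y) (c * x) (b.map fun y => c * y)
    have h2 : Nrm fun m => f (y :: m) := fun a' x' b' => hf (y :: a') x' b'
    rw [List.cons_append, ins_cons, ih h2, List.map_append, List.map_cons, List.map_cons]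
    simp only [List.cons_append] at h1
    rw [h1, sub_zero]

theorem isC_ins (hc : ∀ z, c * z = z * c) {f : List Z → R} (hf : IsC f) : IsC (ins c f) :=
  ⟨inv_ins c hc hf.inv, nrm_ins c hf.nrm⟩

theorem isC_smul (a : R) {f : List Z → R} (hf : IsC f) : IsC fun m => a * f m := by
  constructor
  · intro w l
    show a * f _ = a * f l
    rw [hf.inv w l]
  · intro b x d
    show a * f _ = 0
    rw [hf.nrm b x d, mul_zero]

theorem isC_sub {f g : List Z → R} (hf : IsC f) (hg : IsC g) : IsC fun m => f m - g m := by
  constructor
  · intro w l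
    show f _ - g _ = f l - g l
    rw [hf.inv w l, hg.inv w l]
  · intro b x d
    show f _ - g _ = 0
    rw [hf.nrm b x d, hg.nrm b x d, sub_zero]

theorem isC_zero : IsC fun _ : List Z => (0 : R) := ⟨fun _ _ => rfl, fun _ _ _ => rfl⟩

end Lin

/-- One step. -/
theorem step [Group Z] [CommRing R] (c : Z) (hc : ∀ z, c * z = z * c) (m r : ℕ) (v : R)
    (Y : ℕ → List Z → R) (hm : 0 < m) (hmr : m ≤ r) (hT : TorC Z R m) (h : Cart c (r + 1) v Y) :
    ∃ (N : ℕ) (Y' : ℕ → List Z → R), 0 < N ∧ Cart c r ((N : R) * v) Y' := by
  have htop : Y (r + 1) = fun _ => (0 : R) := by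
    ext l
    exact h.top (r + 1) l le_rfl
  obtain ⟨N, g, hN, hg, hcob⟩ := hT r (Y r) hmr (h.isC r) (by
    intro l hl
    rw [h.cob r l hl, htop, ins_zero, neg_zero])
  obtain ⟨Y', hY'⟩ : ∃ Y' : ℕ → List Z → R, Y' = fun k => if k + 1 < r then
      (fun l => (N : R) * Y k l) else if k + 1 = r then
      (fun l => (N : R) * Y k l - ins c g l) else fun _ => 0 := ⟨_, rfl⟩
  have h1 : ∀ k, k + 1 < r → Y' k = fun l => (N : R) * Y k l := by
    intro k hk
    rw [hY']
    simp only [if_pos hk]
  have h2 : ∀ k, k + 1 = r → Y' k = fun l => (N : R) * Y k l - ins c g l := by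
    intro k hk
    rw [hY']
    have h3 : ¬ k + 1 < r := by omega
    simp only [if_neg h3, if_pos hk]
  have h3 : ∀ k, r ≤ k → Y' k = fun _ => 0 := by
    intro k hk
    rw [hY']
    have h4 : ¬ k + 1 < r := by omega
    have h5 : ¬ k + 1 = r := by omega
    simp only [if_neg h4, if_neg h5]
  refine ⟨N, Y', hN, ?_, ?_, ?_, ?_⟩
  · intro k
    rcases lt_trichotomy (k + 1) r with hk | hk | hk
    · rw [h1 k hk]
      exact isC_smul _ (h.isC k)
    · rw [h2 k hk]
      exact isC_sub (isC_smul _ (h.isC k)) (isC_ins c hc hg)
    · rw [h3 k (by omega)]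
      exact isC_zero
  · intro k l hk
    rw [h3 k hk]
  · intro k l hl
    rcases lt_trichotomy (k + 1) r with hk | hk | hk
    · rw [h1 k hk, cobL_smul, h.cob k l hl]
      rcases lt_or_eq_of_le (show k + 1 + 1 ≤ r by omega) with hk2 | hk2
      · rw [h1 (k + 1) hk2, ins_smul]
        ring
      · rw [h2 (k + 1) hk2, ins_sub, ins_smul, ins_ins]
        ring
    · rw [h2 k hk, h3 (k + 1) (by omega), ins_zero, cobL_sub, cobL_smul, h.cob k l hl]
      have h4 := cobL_ins c g l
      rw [hg.inv c l, sub_self] at h4
      have h5 : ins c (cobL g) l = (N : R) * ins c (Y r) l := by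
        rw [← ins_smul]
        apply ins_congr
        intro m' hm'
        apply hcob
        rw [hm', hl]
        omega
      rw [hk]
      rw [h5] at h4
      linear_combination -h4
    · rw [h3 k (by omega), h3 (k + 1) (by omega), ins_zero, cobL_zero, neg_zero]
  · intro z
    rcases lt_or_eq_of_le (show 0 + 1 ≤ r by omega) with hk | hk
    · rw [h1 0 hk]
      show (N : R) * Y 0 [z, c * z] = N * v
      rw [h.val z]
    · have h4 : ins c g [z, c * z] = 0 := by
        have h5 := ins_ins c g [z]
        rw [ins_cons, ins_nil, sub_zero] at h5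
        exact h5
      rw [h2 0 hk]
      show (N : R) * Y 0 [z, c * z] - ins c g [z, c * z] = N * v
      rw [h4, h.val z, sub_zero]

end RED

open RED in
theorem t_RED : S_RED.{u, v} := by
  intro Z R _ _ c hc m r v Y hm hT h
  have key : ∀ (n : ℕ) (v : R) (Y : ℕ → List Z → R), Cart c (m + n) v Y →
      ∃ (N : ℕ) (Y' : ℕ → List Z → R), 0 < N ∧ Cart c m ((N : R) * v) Y' := by
    intro n
    induction n with
    | zero =>
      intro v Y h
      refine ⟨1, Y, one_pos, ?_⟩
      rw [Nat.cast_one, one_mul]
      exact h
    | succ n ih =>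
      intro v Y h
      obtain ⟨N, Y', hN, h'⟩ := step c hc m (m + n) v Y hm (Nat.le_add_right m n) hT h
      obtain ⟨N', Y'', hN', h''⟩ := ih _ Y' h'
      refine ⟨N' * N, Y'', Nat.mul_pos hN' hN, ?_⟩
      rw [Nat.cast_mul, mul_assoc]
      exact h''
  rcases le_total m r with hmr | hrm
  · obtain ⟨n, rfl⟩ := Nat.exists_eq_add_of_le hmr
    exact key n v Y h
  · refine ⟨1, Y, one_pos, ?_⟩
    rw [Nat.cast_one, one_mul]
    exact ⟨h.isC, fun k l hk => h.top k l (hrm.trans hk), h.cob, h.val⟩

end Pool.Agent.SM4
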