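import Pool.Agent.SM4.St2
import Pool.Agent.SUR.LWE

/-!
# SM4, module REP4: words of the centralisers with weights of bounded degree
-/

set_option autoImplicit false
set_option linter.unusedSectionVars false

open Pool.Agent.SUR Pool.Agent.SM2

noncomputable section

namespace Pool.Agent.SM4

universe u v

namespace REP4

theorem cen {G : Type u} [Group G] (g : G) (z : Subgroup.centralizer {g}) :
    cel g * z = z * cel g :=
  Subtype.ext (Subgroup.mem_centralizer_singleton_iff.1 z.2).symm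

theorem cenp {G : Type u} [Group G] (g : G) (j : ℕ) (z : Subgroup.centralizer {g}) :
    cel g ^ j * z = z * cel g ^ j :=
  (Commute.pow_left (cen g z : Commute (cel g) z) j).eq

theorem tors {M : ℕ} (j : ℕ) (a : ZM M) (hj : 0 < j) (h0 : j • a = 0) : a = 0 :=
  (smul_eq_zero.1 h0).resolve_left hj.ne'

theorem psi_sign {A R : Type*} [CommRing A] [CommRing R] (ψ : A →+ R) (i : ℕ) (a : A) :
    ψ ((-1) ^ i * a) = (-1) ^ i * ψ a := by
  rcases neg_one_pow_eq_or A i with h | h
  · rcases Nat.even_or_odd i with hi | hi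
    · rw [hi.neg_one_pow, hi.neg_one_pow, one_mul, one_mul]
    · rw [hi.neg_one_pow, hi.neg_one_pow, neg_one_mul, neg_one_mul, map_neg]
  · rcases Nat.even_or_odd i with hi | hi
    · rw [hi.neg_one_pow, hi.neg_one_pow, one_mul, one_mul]
    · rw [hi.neg_one_pow, hi.neg_one_pow, neg_one_mul, neg_one_mul, map_neg]

theorem cobL_psi {Z A R : Type*} [CommRing A] [CommRing R] (ψ : A →+ R) (f : List Z → A)
    (l : List Z) : cobL (fun m => ψ (f m)) l = ψ (cobL f l) := by
  unfold cobL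
  rw [map_sum]
  exact Finset.sum_congr rfl fun i _ => (psi_sign ψ i _).symm

theorem ins_psi {Z A R : Type*} [Mul Z] [CommRing A] [CommRing R] (c : Z) (ψ : A →+ R) :
    ∀ (l : List Z) (f : List Z → A), ins c (fun m => ψ (f m)) l = ψ (ins c f l)
  | [], f => by
    simp only [ins]
    rw [map_zero]
  | x :: l, f => by
    simp only [ins]
    rw [map_sub]
    exact congrArg _ (ins_psi c ψ l fun m => f (x :: m))

theorem cart_psi {Z A R : Type*} [Group Z] [CommRing A] [CommRing R] (ψ : A →+ R) (c : Z) (r : ℕ)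
    (v : A) (Y : ℕ → List Z → A) (h : Cart c r v Y) : Cart c r (ψ v) (fun k l => ψ (Y k l)) where
  isC k := ⟨fun w l => congrArg ψ ((h.isC k).inv w l), fun a x b => by
    show ψ (Y k (a ++ x :: x :: b)) = 0
    rw [(h.isC k).nrm a x b, map_zero]⟩
  top k l hk := by
    show ψ (Y k l) = 0
    rw [h.top k l hk, map_zero]
  cob k l hl := by
    show cobL (fun l => ψ (Y k l)) l = -ins c (fun l => ψ (Y (k + 1) l)) l
    rw [cobL_psi, ins_psi, h.cob k l hl, map_neg]
  val z := congrArg ψ (h.val z)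

theorem isB_one {Z R : Type*} [Group Z] [AddCommGroup R] (c : Z) (v : R) (B : Z → Z → R)
    (h : IsB c v B) : B 1 1 = 0 := by
  have h1 := h.mul 1 1 1
  rw [mul_one, inv_one, one_mul] at h1
  exact left_eq_add.1 h1

theorem isB_shift {Z R : Type*} [Group Z] [AddCommGroup R] (c : Z) (v : R) (B : Z → Z → R)
    (h : IsB c v B) (z : Z) : B 1 (c * z) = B 1 z + v := by
  have h1 := h.mul 1 c z
  have h2 := h.inv c⁻¹ z
  rw [mul_inv_cancel] at h2
  rw [h1, h.val, mul_one, ← h2, add_comm]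

end REP4

open REP4 LWTx in
/-- REP4 -/
theorem t_REP4 (hCWT : S_CWT.{u, 0}) (hRED : S_RED.{u, 0}) (hCAR : S_CAR.{u, u})
    (hNIL : S_NIL.{u, u}) (hMONO : s_LMONO.{u}) (hCORE0 : s_LCORE.{u, 0}) (hPOW : s_LPOW.{u})
    (hALG : s_LALG.{u, u}) (hEIG : s_LEIG.{u}) : S_REP4.{u} := by
  intro F _ S hS n k N hn G _ g hA hT ⟨ρ, hρg⟩
  let ρF : Subgroup.centralizer {g} →* Matrix (Fin k) (Fin k) F :=
    (inc (Subring.closure S) k).toMonoidHom.comp ρ
  by_cases h : ∀ j : ℕ, 0 < j → ¬IsNilpotent (ρF (cel g) ^ j - 1)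
  · -- a homomorphism to the integers
    obtain ⟨f, hf⟩ := hEIG F S hS k (Subgroup.centralizer {g}) (cel g) (cen g) ρF
      (fun z i j => (ρ z i j).2) h
    obtain ⟨W, hW, hD⟩ := hCORE0 (Subgroup.centralizer {g}) (ZM 1) (cel g) (cen g) _ _
      (isB_hom (M := 1) (cel g) f) 1 Unit (fun _ _ => 1)
      (fun _ t => (((f t).toAdd : ℤ) : ZM 1)) (by simp) (fun w t => by simp)
    refine ⟨1, one_pos, Nat.coprime_one_left N, _, W, ?_, hW,
      hMONO _ _ _ _ _ _ _ (by omega) hD⟩
    have h1 : (((f (cel g)).toAdd : ℤ) : ZM 1) ≠ 0 := Int.cast_ne_zero.2 hf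
    exact mul_ne_zero (Nat.cast_ne_zero.2 (Nat.factorial_ne_zero _)) (pow_ne_zero _ h1)
  · -- a power is unipotent
    push Not at h
    obtain ⟨j, hj, hnil⟩ := h
    have hinf : ∀ i : ℕ, 0 < i → ρ (cel g) ^ i ≠ 1 := fun i hi h1 =>
      hρg (isOfFinOrder_iff_pow_eq_one.2 ⟨i, hi, h1⟩)
    have hchar : CharZero F := by
      by_contra hc
      obtain ⟨p, hp⟩ := CharP.exists F
      have hp0 : p ≠ 0 := fun h0 => hc (by
        rw [h0] at hp
        exact CharP.charP_to_charZero F)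
      have hpp : p.Prime := (CharP.char_is_prime_or_zero F p).resolve_right hp0
      obtain ⟨i, hi, hi1⟩ := pow_eq_one p hpp k (ρF (cel g) ^ j) hnil
      refine hinf (j * i) (Nat.mul_pos hj hi) (inc_injective (Subring.closure S) k ?_)
      rw [map_pow, map_one, pow_mul]
      exact hi1
    have hnil' : IsNilpotent (ρ (cel g ^ j) - 1) := by
      obtain ⟨i, hi⟩ := hnil
      refine ⟨i, inc_injective (Subring.closure S) k ?_⟩
      rw [map_pow, map_sub, map_one, map_zero, map_pow, map_pow]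
      exact hi
    have hne : ρ (cel g ^ j) ≠ 1 := by
      rw [map_pow]
      exact hinf j hj
    obtain ⟨v, B, X, Y, hv, hB, hXY⟩ := hALG (Subring.closure S) k (Subgroup.centralizer {g})
      (cel g ^ j) (cenp g j) ρ hnil' hne
    obtain ⟨φ, hφ, hφc, hφE⟩ := hNIL (Subgroup.centralizer {g}) (Subring.closure S) (cel g ^ j)
      (cenp g j) v B hB (k * k) (Fin k × Fin k) X Y (by simp) hXY
    obtain ⟨Y1, hY1⟩ := hCAR (Subgroup.centralizer {g}) (Subring.closure S) (cel g ^ j)
      (cenp g j) (k * k) v _ (B 1) φ (isB_one _ _ _ hB) (isB_shift _ _ _ hB) hφ hφc hφE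
    have hchar' : CharZero (Subring.closure S) := by
      refine ⟨fun a b hab => ?_⟩
      have h1 := congrArg (Subring.closure S).subtype hab
      rw [map_natCast, map_natCast] at h1
      exact Nat.cast_injective h1
    have hv₁0 : ((k * k + 1).factorial : Subring.closure S) * (-v) ^ (k * k) * v ≠ 0 :=
      mul_ne_zero (mul_ne_zero (Nat.cast_ne_zero.2 (Nat.factorial_ne_zero _))
        (pow_ne_zero _ (neg_ne_zero.2 hv))) hv
    obtain ⟨M, ψ, hM, hMN, hψ⟩ := hA hchar _ hv₁0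
    obtain ⟨N', Y2, hN', hY2⟩ := hRED (Subgroup.centralizer {g}) (ZM M) (cel g ^ j) (cenp g j) n
      (k * k + 1) _ _ hn (hT M hM) (cart_psi ψ _ _ _ _ hY1)
    obtain ⟨W, hW, hD⟩ := hCWT (Subgroup.centralizer {g}) (ZM M) (cel g ^ j) (cenp g j) n _ _ hY2
    obtain ⟨v', W', hv', hW', hD'⟩ := hPOW (Subgroup.centralizer {g}) (ZM M) (cel g) (cen g)
      (fun i a hi h0 => tors i a hi h0) j n hj _ _ hW hD
    refine ⟨M, hM, hMN, v', W', fun h0 => ?_, hW', hMONO _ _ _ _ _ _ _ (by omega) hD'⟩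
    rw [h0, smul_zero] at hv'
    exact mul_ne_zero (Nat.cast_ne_zero.2 hN'.ne') hψ hv'.symm

end Pool.Agent.SM4
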