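import Pool.Agent.SM4.St

/-!
# SM4, module SWP: exchange of two consecutive edges
-/

set_option autoImplicit false

noncomputable section

namespace Pool.Agent.SM4

open Pool.Agent.SUR

universe u v

namespace SWP

variable {Z : Type u} {R : Type v} [CommRing R]

theorem EA_cons {K : List (Z × Z) → R} (hK : EA K) (e : Z × Z) : EA fun L => K (e :: L) := by
  intro a x y w b
  exact hK (e :: a) x y w b

/-- The coboundary of a function of the edges after the first two points. -/
theorem tail_eq (G : List (Z × Z) → R) (y : Z) (l : List Z) :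
    cobL (fun m => G (edg (y :: m))) l = G (edg l) - cobL (fun m => G (edg m)) (y :: l) := by
  rw [cobL_cons (fun m => G (edg m)) y l]
  ring

theorem cob_edg : ∀ (n : ℕ) (l : List Z) (K : List (Z × Z) → R), l.length = n + 2 → EA K →
    cobL (fun m => K (edg m)) l = 0 := by
  intro n
  induction n with
  | zero =>
    intro l K hl _
    match l, hl with
    | [x, y], _ =>
      rw [cobL_cons, cobL_cons]
      simp [cobL, edg]
  | succ n ih =>
    intro l K hl hK
    match l, hl with
    | x :: y :: w :: l', hl =>
      have h1 := tail_eq (fun L => K ((x, y) :: L)) y (w :: l')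
      rw [ih (y :: w :: l') (fun L => K ((x, y) :: L)) (by simpa using hl) (EA_cons hK _),
        sub_zero] at h1
      have h2 := hK [] x y w (edg (w :: l'))
      rw [cobL_cons, cobL_cons]
      have h3 : cobL (fun m => K (edg (x :: y :: m))) (w :: l') = K ((x, y) :: edg (w :: l')) := h1
      rw [h3]
      simp only [List.nil_append] at h2
      show K ((y, w) :: edg (w :: l')) - (K ((x, w) :: edg (w :: l')) - K ((x, y) :: edg (w :: l'))) = 0
      rw [← h2]
      ring

theorem main : ∀ (i : ℕ) (K : List (Z × Z) → R), EA K → ∀ l : List Z, i + 3 ≤ l.length →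
    cobL (fun m => K (dbl i (edg m))) l = (-1) ^ (i + 1) * (K (edg l) + K (swp i (edg l))) := by
  intro i
  induction i with
  | zero =>
    intro K hK l hl
    match l, hl with
    | x :: y :: w :: l', hl =>
      have hK' : EA fun L => K ((x, y) :: (x, y) :: L) := EA_cons (EA_cons hK (x, y)) (x, y)
      have h1 := tail_eq (fun L => K ((x, y) :: (x, y) :: L)) y (w :: l')
      rw [cob_edg l'.length (y :: w :: l') (fun L => K ((x, y) :: (x, y) :: L)) (by simp) hK',
        sub_zero] at h1
      have h3 : cobL (fun m => K (dbl 0 (edg (x :: y :: m)))) (w :: l') =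
        K ((x, y) :: (x, y) :: edg (w :: l')) := h1
      rw [cobL_cons, cobL_cons, h3]
      have a1 := hK [] x y w ((x, w) :: edg (w :: l'))
      have a2 := hK [(x, y)] x y w (edg (w :: l'))
      have a3 := hK [(y, w)] x y w (edg (w :: l'))
      simp only [List.nil_append, List.cons_append] at a1 a2 a3
      show K ((y, w) :: (y, w) :: edg (w :: l')) -
        (K ((x, w) :: (x, w) :: edg (w :: l')) - K ((x, y) :: (x, y) :: edg (w :: l'))) =
        (-1) ^ (0 + 1) * (K ((x, y) :: (y, w) :: edg (w :: l')) +
          K ((y, w) :: (x, y) :: edg (w :: l')))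
      rw [← a1, ← a2, ← a3]
      ring
  | succ i ih =>
    intro K hK l hl
    match l, hl with
    | x :: y :: w :: l', hl =>
      have h1 : cobL (fun m => K ((x, y) :: dbl i (edg (y :: m)))) (w :: l') =
          K ((x, y) :: dbl i (edg (w :: l'))) -
            cobL (fun m => K ((x, y) :: dbl i (edg m))) (y :: w :: l') :=
        tail_eq (fun L => K ((x, y) :: dbl i L)) y (w :: l')
      rw [ih (fun L => K ((x, y) :: L)) (EA_cons hK _) (y :: w :: l') (by
        simp only [List.length_cons] at hl ⊢
        omega)] at h1
      have h3 : cobL (fun m => K (dbl (i + 1) (edg (x :: y :: m)))) (w :: l') = _ := h1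
      rw [cobL_cons, cobL_cons, h3]
      have a1 := hK [] x y w (dbl i (edg (w :: l')))
      simp only [List.nil_append] at a1
      show K ((y, w) :: dbl i (edg (w :: l'))) -
        (K ((x, w) :: dbl i (edg (w :: l'))) - (K ((x, y) :: dbl i (edg (w :: l'))) -
          (-1) ^ (i + 1) * (K ((x, y) :: edg (y :: w :: l')) +
            K ((x, y) :: swp i (edg (y :: w :: l')))))) =
        (-1) ^ (i + 1 + 1) * (K ((x, y) :: edg (y :: w :: l')) +
          K ((x, y) :: swp i (edg (y :: w :: l'))))
      rw [← a1]
      ring

end SWP

theorem t_SWP : S_SWP.{u, v} := by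
  intro Z R _ K hK i l hl
  exact SWP.main i K hK l hl

end Pool.Agent.SM4
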