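import Pool.Agent.SM4.Defs

/-!
# MP_e40716_gt (SM4): statements

Module `X` proves `theorem t_X (h : S_Y) ... : S_X` in `Pool/Agent/SM4/P_X.lean`, namespace
`Pool.Agent.SM4`; the hypotheses are the statements named in the doc string, nothing else. Auxiliary
lemmas in the namespace `Pool.Agent.SM4.X`. Definitions: `SM4/Defs.lean`; `SUR/CondE.lean` (`eu`, `cupE`,
`cobL`), `SUR/LCUP.lean` (`cobL_cons`, `cobL_smul`), `SUR/StL.lean` (`th`, `Cub`, `DegV`, `IsB`),
`SUR/StA.lean` (`WtAtA`), `SUR/LKERD.lean` (`LKERDaux.Pol` and its rules).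

The project: if the cohomology of the centraliser `C` of `g` is torsion in all odd degrees `> 2 m`, then
a representation of `C` of any dimension which maps `g` to an element of infinite order gives a weight
of degree at most `m + 1`.
-/

set_option autoImplicit false

open Pool.Agent.SUR
open Pool.Agent.SUR.LKERDaux (Pol)

noncomputable section

namespace Pool.Agent.SM4

universe u v

/-- IDN (150 lines; no hypotheses). The boundary of the sum over closed words.

PROOF. First: `Sk` is additive in `f` (sums, differences, `0`) and depends only on the values of `f` on lists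
of length `2 k`; `spl` is additive in `F`. (TR) `Sk k f (t * q) w = Sk k (fun m => f (m.map (t * ·))) q w` for
all `t` (induction on `k`, the points of the path are `q * a.prod`). (SP) `spl F a (u ++ u') = spl F a u +
spl F (a ++ u) u'` where for words `u ++ u'` the third argument of `F` changes: state it as
`spl F a (u ++ u') = spl (fun p z s => F p z (s ++ u')) a u + spl F (a ++ u) u'`.
(ROT) For `w = z :: u` and `w' = u ++ [z]`, `w'.prod = w.prod = c` central, `q' = q * z`:
`Sk (k+1) f q' w' = Sk (k+1) f q w - Sk k (fun m => f (q :: q' :: m)) q' w'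
  + Sk k (fun m => f (c*q :: c*q' :: m)) (c*q') w'`
(the edges of `w'` from `q'` are those of `w` from `q` except that the first edge `q → q'` of `w` is replaced by
the last edge `c q → c q'` of `w'`; the inner words of the other edges agree: for `u = p ++ x :: s` they are
`s ++ (z :: p) ++ [x]` and `(s ++ [z]) ++ p ++ [x]`). (TEL) a sum over the letters
`spl (fun a z b => Φ (q * a.prod * z) (b ++ (a ++ [z])) - Φ (q * a.prod) (z :: b ++ a)) [] w = Φ (q * w.prod) w - Φ q w`.
Induction on `k` for all `f`, `q`, `w`. Use `cobL f (y :: y' :: m) = f (y' :: m) - f (y :: m) +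
cobL (fun m => f (y :: y' :: m)) m`. `k = 0`: telescoping, `Sk 0 (ins c f) = 0`. `k + 1`: at each letter, with
`y = q a`, `y' = y z`, `u = b ++ (a ++ [z])` (product `c`), `g = fun m => f (y :: y' :: m)`:
`Sk (k+1) (f(y'::·)) y' u - Sk (k+1) (f(y::·)) y' u + Sk (k+1) (cobL g) y' u`. Second term by (ROT) (the term with
`f (y :: y :: y' :: ·)` is `0`) `= Sk (k+1) (f(y::·)) y (z::b++a) + Sk k (f(y::c y::c y'::·)) (c y') u`, and the last
one is `Sk k (fun m => f (y :: c y :: c y' :: m.map (c * ·))) y' u` by (TR). The third term by induction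
is `Sk k (fun m => g (c y' :: m.map (c * ·))) y' u - 0 - Sk k (ins c g) y' u`. The sum of the differences
telescopes (TEL, `Φ x u = Sk (k+1) (f (x :: ·)) x u`, `Φ (q c) w = Φ (c q) w` and (TR)) to the first two terms of
the right side, the rest is `- Sk k (fun m => ins c f (y :: y' :: m)) y' u` because
`ins c f (y :: y' :: m) = f (y :: c y :: c y' :: m.map (c * ·)) - f (y :: y' :: c y' :: m.map (c * ·)) + ins c g m`. -/
def S_IDN : Prop := ∀ (Z : Type u) (R : Type v) [Group Z] [CommRing R] (c : Z),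
  (∀ z, c * z = z * c) → ∀ (k : ℕ) (f : List Z → R), Nrm f → ∀ (q : Z) (w : List Z), w.prod = c →
  Sk (k + 1) (cobL f) q w = Sk k (fun m => f (c * q :: m.map fun y => c * y)) q w -
    Sk k (fun m => f (q :: m)) q w - Sk k (ins c f) q w

/-- TOT (80 lines; hypothesis `S_IDN.{u, v}`). The total.

PROOF. For `l` of length `2 k + 2` and `f = fun m => Y k (q :: m)`: `cobL (Y k) (q :: l) = Y k l - cobL f l`
(`cobL_cons`), so `Y k l = cobL f l - ins c (Y (k + 1)) (q :: l)` (`cob`). `IDN` for `f` (normalised):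
`Sk (k+1) (cobL f) q w = Sk k (fun m => Y k (q :: c*q :: m.map (c * ·))) q w - 0 - Sk k (ins c f) q w
= Sk k (fun m => ins c (Y k) (q :: m)) q w` (the middle term is `Y k (q :: q :: ·) = 0`, and
`ins c (Y k) (q :: m) = Y k (q :: c*q :: m.map (c * ·)) - ins c f m`). So with
`T k = Sk k (fun m => ins c (Y k) (q :: m)) q w`: `Sk (k+1) (Y k) q w = T k - T (k+1)`. Sum: `T 0 - T r`,
`T r = 0` (`ins c 0 = 0`, `top`), `T 0 = ins c (Y 0) [q] = Y 0 [q, c*q] = v`. `Sk` depends only on the
values of the cochain on lists of length `2 k`: prove this congruence first. -/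
def S_TOT : Prop := ∀ (Z : Type u) (R : Type v) [Group Z] [CommRing R] (c : Z),
  (∀ z, c * z = z * c) → ∀ (r : ℕ) (v : R) (Y : ℕ → List Z → R), Cart c r v Y →
  ∀ (q : Z) (w : List Z), w.prod = c → ∑ k ∈ Finset.range r, Sk (k + 1) (Y k) q w = v

/-- DGC (130 lines; no hypotheses). Degrees.

PROOF. `Pol R d k` and its rules: SUR/LKERD.lean, `LKERDaux` (`pol_const`, `pol_mono`, `pol_ite`, `cub_th`,
`AddSubgroup.add_mem`). (1) by induction on `k` for all `f`, `q` and all cubes: `k = 0` constant. Step: (2) for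
`k` (which only needs (1) for `k`) with `A = 1`. (2) More general, for `B` a cube: the function
`ε ↦ spl (fun a z b => Sk k (f ..) (..) (b ++ (B ε ++ (A ε ++ (a ++ [z]))))) [] (C ε)`; induction on the cube
`C`, for all `A`, `B`, `q`. Constant cube `C`: induction on the word (for `spl F a b` with any `a`): a finite
sum of functions `ε ↦ Sk k f' q' (b ++ B ε ++ A ε ++ a ++ [z])` of words which are cubes (`Cub.mul`,
`Cub.const`). Slots: `pol_ite` for the two constant words. Products `C ε * C' ε`: by the rule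
`spl F a (u ++ u') = spl (fun p z s => F p z (s ++ u')) a u + spl F (a ++ u) u'` the first sum is the case
`C`, `B' = C' B`; in the second one `a` starts with `C ε`, `(C ε).prod` does not depend on `ε` (`cub_th`), so
it is the case `C'`, `A' = A C`, `q' = q * (C ε).prod`. -/
def S_DGC : Prop := ∀ (Z : Type u) (R : Type v) [Group Z] [CommRing R] (d k : ℕ) (f : List Z → R)
  (q : Z) (C : (Fin d → Bool) → FreeMonoid Z), Cub (th Z) C →
  (fun ε => Sk k f q (FreeMonoid.toList (C ε))) ∈ Pol R d k ∧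
  ∀ A : (Fin d → Bool) → FreeMonoid Z, Cub (th Z) A →
    (fun ε => spl (fun a z b => Sk k (fun m => f (q * a.prod :: q * a.prod * z :: m))
      (q * a.prod * z) (b ++ (FreeMonoid.toList (A ε) ++ (a ++ [z])))) []
      (FreeMonoid.toList (C ε))) ∈ Pol R d (k + 1)

/-- CWT (150 lines; hypotheses `S_TOT.{u, v}`, `S_DGC.{u, v}`). The weight.

PROOF. `W a b = ∑ k < r, V k a b` if `th Z (b * a) = c`, `0` otherwise, where (lists for words)
`V k a b = spl (fun p z s => Sk k (fun m => Y k (p.prod :: p.prod * z :: m)) (p.prod * z) (s ++ (a ++ (p ++ [z])))) [] b`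
(the part of `Sk (k+1) (Y k) 1 (b ++ a)` with the first edge in `b`; use `1 * p.prod` as in `S_DGC`).
(1) `W x (y z) = W (x y) z + W (z x) y`: the conditions agree (`th (y z x) = c`, cyclic permutations have the
product `c` as `c` is central). `spl F [] (y ++ z) = spl (fun p e s => F p e (s ++ z)) [] y + spl F y z`; the
first part is `V k (z x) y` literally (associativity of `++`); in the second part the points are
`y.prod * p.prod`, by translation (`Y k` is invariant; `Sk k f (t * q) w = Sk k (fun m => f (m.map (t * ·))) q w`,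
induction on `k`) it is `V k (x y) z`. (2) `W a b ≠ 0` implies `th (b a) = c`, so `th (a b) = c`. (3)
`W 1 y = ∑ k < r, Sk (k+1) (Y k) 1 y = v` for `th y = c` (`S_TOT`). (4) degree: for cubes the condition does not
depend on `ε` (`cub_th`); `V k (C ε) (C' ε)` is in `Pol R (r + 1) (k + 1)` by `S_DGC` (second part, `q = 1`), so
the sum is in `Pol R (r + 1) r` and `altS` kills it (`altS_pol`). -/
def S_CWT : Prop := ∀ (Z : Type u) (R : Type v) [Group Z] [CommRing R] (c : Z),
  (∀ z, c * z = z * c) → ∀ (r : ℕ) (v : R) (Y : ℕ → List Z → R), Cart c r v Y →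
  ∃ W : FreeMonoid Z → FreeMonoid Z → R, WtAtA (th Z) c v W ∧ DegV (th Z) r W

/-- RED (180 lines; no hypotheses). Reduction of the number of cochains.

PROOF. It suffices to pass from `r + 1` to `r` for `r ≥ m` (so `r ≥ 1`), then induction; for `r ≤ m` a `Cart` with
`r` is one with `m`. Rules: (a) `cobL (ins c f) l + ins c (cobL f) l = 0` for `l ≠ []`, `f` invariant, `c` central
(induction on `l` for all `f` gives `cobL (ins c f) l + ins c (cobL f) l = f (l.map (c * ·)) - f l` without
invariance). (b) `ins c (ins c f) = 0` for all `f` (induction on the list: first show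
`ins c f (x :: c x :: l.map (c * ·))` ...; or with sums over positions). (c) `ins c` preserves `Inv` (`c` central)
and `Nrm`; `ins` is linear in `f`, `ins c f l` depends only on the values of `f` on lists of length
`l.length + 1`. Now `Y r` is a cocycle of degree `2 r + 1` (`cob r`, `Y (r + 1) = 0`), so
`cobL g = N * Y r` on lists of length `2 r + 2`. `Y' k = N * Y k` for `k + 1 < r`,
`Y' (r - 1) = N * Y (r - 1) - ins c g`, `Y' k = 0` for `k ≥ r`. `cob (r - 1)`: `cobL (Y' (r-1)) = N * cobL (Y (r-1))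
- cobL (ins c g) = - N * ins c (Y r) + ins c (cobL g) = 0`. `cob (r - 2)`: by (b). `val`: if `r ≥ 2` clear; if
`r = 1`: `(ins c g) [z, c z] = 0` ((b) at `[z]`). -/
def S_RED : Prop := ∀ (Z : Type u) (R : Type v) [Group Z] [CommRing R] (c : Z),
  (∀ z, c * z = z * c) → ∀ (m r : ℕ) (v : R) (Y : ℕ → List Z → R), 0 < m → TorC Z R m → Cart c r v Y →
  ∃ (N : ℕ) (Y' : ℕ → List Z → R), 0 < N ∧ Cart c m ((N : R) * v) Y'

/-- CAR (170 lines; no hypotheses). From a nilpotent Euler class to `Cart`.

PROOF. `D : List Z → R`, `D (x :: y :: w :: l) = eu s x y w * D (w :: l)`, `D [x, y] = s (x⁻¹ * y)`, `D _ = 0`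
for `[x]`, `[]`. (1) `cobL D l = cupE s l` for lists of length `2 k + 3`; (2) `ins c D l = v * cupE s l` for lists
of length `2 k + 1`. (1): by `cobL_cons` and the cocycle rule `eu_cocycle` as in `t_LCUP` (SUR/LCUP.lean):
`cobL D (x :: y :: w :: l) = ... ` reduces to `cobL D (w :: l)` times `eu s x y w`; for `[x, y, w]`:
`s (y⁻¹ w) - s (x⁻¹ w) + s (x⁻¹ y)`. (2): `ins c D (x :: y :: w :: l) = D (x :: c x :: c y :: ..) -
D (x :: y :: c y :: ..) + D-part`: `eu s x (c x) (c y) = s (x⁻¹ c x) + s (x⁻¹ y) - s (x⁻¹ c y) = v + .. - (.. + v) = 0`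
(`s 1 = 0`, `s c = v`, `s (c z) = s z + v`), `eu s x y (c y) = 0` in the same way; `D` at lists all of whose
points from a place on are multiplied by `c` is easy because `eu s (c x) (c y) (c w) = eu s x y w` and
`s ((c x)⁻¹ (c y)) = s (x⁻¹ y)`. (3) `D` is invariant and normalised (`eu s x x w = 0 = eu s x y y`,
`s (x⁻¹ x) = 0`), for lists of all lengths. (4) `ins c φ = 0`: all its terms are `φ (.., x, c x, ..) =
φ (.., x, x, ..) = 0` by `Per` and `Nrm`. `Y k l = t * (-v) ^ (r - k) * D l` for `k < r`,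
`Y r l = t * D l - φ l`, `Y k = 0` for `k > r`; `cob r`: `t * cupE s l - t * cupE s l = 0`;
`val`: `t * (-v) ^ r * s (z⁻¹ c z) = t (-v)^r v` (if `r = 0` also `φ [z, c z] = φ [z, z] = 0`). -/
def S_CAR : Prop := ∀ (Z : Type u) (R : Type v) [Group Z] [CommRing R] (c : Z),
  (∀ z, c * z = z * c) → ∀ (r : ℕ) (v t : R) (s : Z → R) (φ : List Z → R), s 1 = 0 →
  (∀ z, s (c * z) = s z + v) → IsC φ → Per c φ →
  (∀ l, l.length = 2 * r + 3 → cobL φ l = t * cupE s l) →
  ∃ Y : ℕ → List Z → R, Cart c (r + 1) (t * (-v) ^ r * v) Y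

/-- SWP (120 lines; no hypotheses). Exchange of two consecutive edges.

PROOF. (A) if `EA K` then `cobL (fun m => K (edg m)) l = 0` for `2 ≤ l.length`: induction on the length for all
`K`; `cobL φ (x :: y :: l) = φ (y :: l) - φ (x :: l) + cobL (fun m => φ (x :: y :: m)) l`, for `l = w :: l'` and
`φ m = K (edg m)`: `φ (x :: y :: m) = K' (edg (y :: m))`, `K' L = K ((x, y) :: L)`, `EA K'`, and
`cobL (fun m => K' (edg (y :: m))) l = K' (edg l) - cobL (fun m => K' (edg m)) (y :: l) = K' (edg l)` by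
induction; `K ((y, w) :: L) - K ((x, w) :: L) + K ((x, y) :: L) = 0`. For `[x, y]`: `K [] - K [] = 0`.
(B) the statement by induction on `i` for all `K`. `i = 0`, `l = x :: y :: w :: l'`,
`F m = K (dbl 0 (edg m))`: `cobL F l = F (y::w::l') - F (x::w::l') + F (x::y::l') - cobL (fun m => F (x::y::w::m)) l'`;
if `l' = []` the last term is `0`, if `l' = u :: l''` it is `K ((x,y) :: (x,y) :: (y,w) :: edg l')` by (A), and
`K (.. (y,u) ..) - K (.. (y,w) ..) = K (.. (w,u) ..)`; the rest is the expansion of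
`K2 (y,w) (y,w) - K2 (x,w) (x,w) + K2 (x,y) (x,y) = - K2 (x,y) (y,w) - K2 (y,w) (x,y)` for `K2` additive in both
edges. `i + 1`, `l = x :: y :: w :: l'`, `K_e L = K (e :: L)`, `F_e m = K_e (dbl i (edg m))`:
`cobL F l = F (y::w::l') - F (x::w::l') + F_(x,y) (w::l') - cobL F_(x,y) (y :: w :: l')`, the first three terms
`F_(y,w) - F_(x,w) + F_(x,y)` at `w :: l'` cancel, the last one is known by induction. -/
def S_SWP : Prop := ∀ (Z : Type u) (R : Type v) [CommRing R] (K : List (Z × Z) → R), EA K →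
  ∀ (i : ℕ) (l : List Z), i + 3 ≤ l.length →
  cobL (fun m => K (dbl i (edg m))) l = (-1) ^ (i + 1) * (K (edg l) + K (swp i (edg l)))

/-- PRM (150 lines; hypothesis `S_SWP.{u, v}`). Permutations of the edges.

PROOF. Let `𝓑` be the set of the functions `H : (Fin n → Z × Z) → R` for which there is `φ`, `IsC φ`, `Per c φ`, with
`cobL φ (List.ofFn x) = H (fun i => (x i.castSucc, x i.succ))` for all `x : Fin (n + 1) → Z`: closed under
sums and negation. (1) If `EdK c K` and `i + 1 < n`, then `e ↦ K e + K (e ∘ swap i (i+1))` is in `𝓑`: let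
`K' L = K (fun i => L[i])` if `L.length = n`, `0` otherwise (`EA K'`), and
`φ m = (-1) ^ (i + 1) * K' (dbl i (edg m))` (`S_SWP`; `edg (List.ofFn x)` is the list of the
`(x i.castSucc, x i.succ)`, `swp i` exchanges two entries). `φ` is invariant (`edg`, `dbl` commute with `map`),
normalised (an edge `(x, x)` gives `0` by additivity: `K (.. (x,x) ..) + K (.. (x,x) ..) = K (.. (x,x) ..)`),
and `Per c φ`: a point occurs as an end of one or two edges, use `per1`, `per2` for the entries of the list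
(for `L.length = n`). (2) If `EdK c K` then `EdK c (fun e => K (e ∘ σ))`. (3) `Equiv.Perm.mclosure_swap_castSucc_succ`
and `Submonoid.closure_induction_left`: for `τ * σ`, `τ = swap i.castSucc i.succ`:
`K (e ∘ (τ * σ)) - sign (τ σ) • K e = [K' (e ∘ τ) + K' e] - [K' e - sign σ • K e]`, `K' e = K (e ∘ σ)`. -/
def S_PRM : Prop := ∀ (Z : Type u) (R : Type v) [Group Z] [CommRing R] (c : Z),
  (∀ z, c * z = z * c) → ∀ (n : ℕ) (K : (Fin n → Z × Z) → R), EdK c K → ∀ σ : Equiv.Perm (Fin n),
  ∃ φ : List Z → R, IsC φ ∧ Per c φ ∧ ∀ x : Fin (n + 1) → Z,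
    cobL φ (List.ofFn x) = K (fun i => (x (σ i).castSucc, x (σ i).succ)) -
      (Equiv.Perm.sign σ : ℤ) • K (fun i => (x i.castSucc, x i.succ))

/-- NIL (180 lines; hypothesis `S_PRM.{u, v}`). The Euler class of a form of small rank is nilpotent.

PROOF. `P = PD B`. (1) `eu (B 1) x y w = P (x, y) (y, w)`: by `mul`, `B 1 (x⁻¹ w) = B 1 (x⁻¹ y) + B (y⁻¹ x) (y⁻¹ w)`
and `B (y⁻¹ x) (y⁻¹ w) = B x w - B x y` (`B x w = B x y + B (y⁻¹ x) (y⁻¹ w)`), `B 1 (y⁻¹ w) = B y w - B y y`.
(2) `P` is additive in both edges, `P (w e) (w e') = P e e'` (from `B (w x) (w y) - B (w x) w = B x y`), and does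
not change if one of the four points is multiplied by `c` (`B (c x) y = B x y`; `B x (c y) = v + B x y`: by
`mul` `B x (c y) = B x c + B (c⁻¹ x) y`, and `c⁻¹` by `inv`). (3) `K e = ∏ i : Fin r', P (e (2 i)) (e (2 i + 1))`
for `e : Fin (2 r') → Z × Z` (`r' = r + 1`; use an equivalence `Fin r' × Fin 2 ≃ Fin (2 r')` or
`finProdFinEquiv`) satisfies `EdK c K`, and `cupE (B 1) (List.ofFn x) = K (edges of x)` (induction on `r'`).
(4) for `π : Perm (Fin r')` let `σ π` permute the odd places: `sign (σ π) = sign π`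
(`Equiv.Perm.sign_prodExtendRight`, `sign_permCongr`/`sign_symm_trans_trans`), and
`K (e ∘ σ π) = ∏ i, P (e (2 i)) (e (2 π i + 1))`; so `∑ π, sign π • K (e ∘ σ π)` is the determinant of the matrix
`P (e (2 i)) (e (2 j + 1))` (or its transpose), a product of an `r' × ι` and an `ι × r'` matrix
(`PD B (a, b) (p, q) = ∑ i, (X i b - X i a) * (Y i q - Y i p)`), `card ι < r'`, so `0` (this is in the proof of
`t_LCORE`, SUR/LCORE.lean). (5) `r'! * K = ∑ π, sign π • (sign π • K) = ∑ π, sign π • (K ∘ σ π) -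
∑ π, sign π • (K ∘ σ π - sign π • K)`, so `φ = - ∑ π, sign π • φ π` with `φ π` from `S_PRM`. -/
def S_NIL : Prop := ∀ (Z : Type u) (R : Type v) [Group Z] [CommRing R] (c : Z),
  (∀ z, c * z = z * c) → ∀ (v : R) (B : Z → Z → R), IsB c v B →
  ∀ (r : ℕ) (ι : Type) [Fintype ι] (X Y : ι → Z → R), Fintype.card ι ≤ r →
  (∀ w t, B w t = ∑ i, X i w * Y i t) →
  ∃ φ : List Z → R, IsC φ ∧ Per c φ ∧ ∀ l, l.length = 2 * r + 3 →
    cobL φ l = ((r + 1).factorial : R) * cupE (B 1) l

/-- NRM (180 lines; no hypotheses). Normalisation.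

PROOF. `g` is a cochain of degree `n`; for lists of length `n` and `i < n` let `dbl i` double the entry `i`. Put
`g 0 = g`, `g (i + 1) = g i - cobL (h i)`, `h i m = (-1) ^ i * g i (dbl i m)` (for lists `m` of length `n`;
`cobL (cobL _) = 0`, so `cobL (g i) = f` on lists of length `n + 2`; all `g i` are invariant). Claim by induction on
`i ≤ n`: `g i (dbl j l) = 0` for `j < i` and `l` of length `n`. Rules: `(dbl j l).eraseIdx k` is `dbl (j-1) (l.eraseIdx k)`
for `k < j`, `l` for `k = j, j + 1`, `dbl j (l.eraseIdx (k-1))` for `k > j + 1`; `dbl i (dbl j l) = dbl j (dbl (i-1) l)`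
for `j < i`. Step for `j < i`: all terms of `cobL (h i) (dbl j l)` vanish except those with `k = j, j + 1`, which
cancel. Step for `j = i`: `g i (dbl i l) - (-1)^i ∑_k (-1)^k g i (dbl i ((dbl i l).eraseIdx k))`: the terms `k < i`
vanish, `k = i, i + 1` cancel, so it is `g i (dbl i l) - (-1)^i ∑_{k ≥ i+2} (-1)^k g i (dbl i (dbl i (l.eraseIdx (k-1))))`;
and `0 = f (dbl i (dbl i l)) = cobL (g i) (dbl i (dbl i l)) = (-1)^i (1 - 1 + 1) g i (dbl i l) -
∑_{k ≥ i+2} (-1)^k g i (dbl i (dbl i (l.eraseIdx (k-1))))`. At the end `g' l = g n l` if `l.length = n + 1`, `0`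
otherwise; a list of length `n + 1` of the form `a ++ x :: x :: b` is `dbl a.length (a ++ x :: b)`. -/
def S_NRM : Prop := ∀ (Z : Type u) (R : Type v) [Group Z] [CommRing R] (n : ℕ) (f g : List Z → R),
  IsC f → Inv g → (∀ l, l.length = n + 2 → cobL g l = f l) →
  ∃ g' : List Z → R, IsC g' ∧ ∀ l, l.length = n + 2 → cobL g' l = f l

/-- TBR (100 lines; no hypotheses; ADAPTATION of `t_LCBR`, SUR/LCBR.lean). Torsion cohomology in terms of
inhomogeneous cochains with trivial coefficients.

PROOF. As `t_LCBR`: the cocycle `f` has a class in `groupCohomology A (n + 1)`; a multiple `N •` of it vanishes, so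
`N f` is a coboundary. -/
def S_TBR : Prop := ∀ (Q k : Type u) [Group Q] [CommRing k] (n : ℕ) (f : (Fin (n + 1) → Q) → k),
  (∀ x : groupCohomology (Rep.trivial k Q k) (n + 1), ∃ N : ℕ, 0 < N ∧ N • x = 0) →
  (∀ g : Fin (n + 2) → Q, f (fun i => g i.succ) +
    ∑ j : Fin (n + 2), (-1) ^ ((j : ℕ) + 1) * f (Fin.contractNth j (· * ·) g) = 0) →
  ∃ (N : ℕ) (ψ : (Fin n → Q) → k), 0 < N ∧ ∀ g : Fin (n + 1) → Q, ψ (fun i => g i.succ) +
    ∑ j : Fin (n + 1), (-1) ^ ((j : ℕ) + 1) * ψ (Fin.contractNth j (· * ·) g) = (N : k) * f g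

/-- TCH (130 lines; hypotheses `S_TBR.{u}`, `S_NRM.{u, 0}`). From `groupCohomology` to normalised homogeneous
cochains.

PROOF. (compare `t_LCOH`, SUR/LCOH.lean: `COH.H`, `COH.homL`, `COH.cob_homL`, `COH.homL_mul`, `COH.cobL_ofFn`.) Let `f` be a
normalised invariant cocycle of degree `2 n + 1`, values in `ZM M`. `f₀ : (Fin (2 n + 1) → C) → ULift (ZM M)`,
`f₀ g = f (List.ofFn (Fin.partialProd g))`; by invariance `homL f₀ = f` on lists of length `2 n + 2`, and by
`cob_homL` `f₀` is a cocycle. `S_TBR` gives `N`, `ψ`; `g = homL ψ` (composed with `ULift.down`) is invariant with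
`cobL g = N * f` on lists of length `2 n + 2`. `S_NRM` for `N * f`, `g` (`Inv`). -/
def S_TCH : Prop := ∀ (C : Type u) [Group C] (m : ℕ), TorH m C → ∀ M : ℕ, 0 < M → TorC C (ZM M) m

end Pool.Agent.SM4
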