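import Mathlib
import Pool.Agent.SM4.St

/-! # TBR (helper62): torsion cohomology in terms of inhomogeneous cochains -/

set_option autoImplicit false

universe u v

namespace Pool.Agent.SM4

open CategoryTheory

namespace TBR

lemma exL {k : Type u} [CommRing k] (K : CochainComplex (ModuleCat.{u} k) ℕ) (n : ℕ)
    (z : K.cycles (n + 1)) (hz : (K.homologyπ (n + 1)).hom z = 0) :
    ∃ y : K.X n, (K.toCycles n (n + 1)).hom y = z := by
  have h1 : (ShortComplex.mk _ _ (K.toCycles_comp_homologyπ n (n + 1))).Exact :=
    ShortComplex.exact_of_g_is_cokernel _ (K.homologyIsCokernel n (n + 1) (by simp))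
  exact (ShortComplex.moduleCat_exact_iff _).1 h1 z hz

end TBR

theorem t_TBR : S_TBR.{u} := by
  intro Q k _ _ n f hs hf
  have hd : inhomogeneousCochains.d (Rep.trivial k Q k) (n + 1) f = 0 := by
    funext g
    have h0 := hf g
    change (inhomogeneousCochains.d (Rep.trivial k Q k) (n + 1)).hom f g = 0
    rw [inhomogeneousCochains.d_hom_apply]
    simp only [smul_eq_mul]
    exact h0
  obtain ⟨N, hN, hx⟩ := hs (groupCohomology.π (Rep.trivial k Q k) (n + 1)
    (groupCohomology.cocyclesMk (A := Rep.trivial k Q k) f hd))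
  have hx' : (groupCohomology.π (Rep.trivial k Q k) (n + 1)).hom
      (N • groupCohomology.cocyclesMk (A := Rep.trivial k Q k) f hd) = 0 := by
    rw [map_nsmul]
    exact hx
  obtain ⟨ψ, hψ⟩ := TBR.exL _ n _ hx'
  have h2 : ((groupCohomology.inhomogeneousCochains (Rep.trivial k Q k)).d n (n + 1)).hom ψ =
      N • f := by
    have h3 : (groupCohomology.inhomogeneousCochains (Rep.trivial k Q k)).toCycles n (n + 1) ≫
        (groupCohomology.inhomogeneousCochains (Rep.trivial k Q k)).iCycles (n + 1) =
        (groupCohomology.inhomogeneousCochains (Rep.trivial k Q k)).d n (n + 1) :=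
      HomologicalComplex.toCycles_i _ _ _
    rw [← h3]
    have h4 := congrArg
      (groupCohomology.iCocycles (Rep.trivial k Q k) (n + 1)).hom hψ
    rw [map_nsmul] at h4
    have h5 := groupCohomology.iCocycles_mk (A := Rep.trivial k Q k) f hd
    refine h4.trans ?_
    exact congrArg (fun t => N • t) h5
  rw [groupCohomology.inhomogeneousCochains.d_def (Rep.trivial k Q k) n] at h2
  refine ⟨N, ψ, hN, ?_⟩
  intro g
  have key : (inhomogeneousCochains.d (Rep.trivial k Q k) n).hom ψ g =
      ψ (fun i => g i.succ) +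
        ∑ j : Fin (n + 1), (-1) ^ ((j : ℕ) + 1) * ψ (Fin.contractNth j (· * ·) g) := by
    rw [inhomogeneousCochains.d_hom_apply]
    simp only [smul_eq_mul]
    rfl
  have h6 : (N • f : (Fin (n + 1) → Q) → k) g = (N : k) * f g := by
    rw [Pi.smul_apply, nsmul_eq_mul]
  exact key.symm.trans ((congrFun h2 g).trans h6)

end Pool.Agent.SM4
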