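import Pool.Agent.SM4.St
import Pool.Agent.SUR.LCOH

/-!
# MP_e40716_gt (SM4), module TCH: from `groupCohomology` to normalised homogeneous cochains
-/

set_option autoImplicit false

open Pool.Agent.SUR Pool.Agent.SUR.COH

noncomputable section

namespace Pool.Agent.SM4

universe u v

namespace TCH

/-- A multiple of an invariant normalised cochain is one. -/
theorem isC_mul {Z R : Type*} [Mul Z] [CommRing R] {f : List Z → R} (hf : IsC f) (N : R) :
    IsC (fun l => N * f l) :=
  ⟨fun w l => by rw [hf.inv w l], fun a x b => by rw [hf.nrm a x b, mul_zero]⟩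

end TCH

theorem t_TCH (hTBR : S_TBR.{u}) (hNRM : S_NRM.{u, 0}) : S_TCH.{u} := by
  intro C _ m hT M hM n f hmn hf hcob
  let e : ULift.{u} (ZM M) →+* ZM M :=
    (ULift.ringEquiv : ULift.{u} (ZM M) ≃+* ZM M).toRingHom
  let f₀ : (Fin (2 * n + 1) → C) → ULift.{u} (ZM M) := fun g =>
    ULift.up (f (List.ofFn (Fin.partialProd g)))
  have h1 : ∀ x : Fin (2 * n + 2) → C, e (homL f₀ (List.ofFn x)) = f (List.ofFn x) := by
    intro x
    rw [homL_ofFn]
    show f (List.ofFn (Fin.partialProd fun i => (x i.castSucc)⁻¹ * x i.succ)) = _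
    rw [← hf.inv (x 0) (List.ofFn (Fin.partialProd fun i => (x i.castSucc)⁻¹ * x i.succ)),
      map_ofFn']
    congr 2
    exact Fin.partialProd_left_inv x
  have he : Function.Injective e := ULift.down_injective
  -- the cocycle
  have hcoc : ∀ g : Fin (2 * n + 2) → C, f₀ (fun i => g i.succ) +
      ∑ j : Fin (2 * n + 2), (-1) ^ ((j : ℕ) + 1) * f₀ (Fin.contractNth j (· * ·) g) = 0 := by
    intro g
    rw [← cob_homL f₀ (Fin.partialProd g) g (fun i => (Fin.partialProd_right_inv g i).symm)]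
    apply he
    rw [cobL_map, map_zero, ← hcob (List.ofFn (Fin.partialProd g)) (by rw [List.length_ofFn]),
      cobL_ofFn, cobL_ofFn]
    refine Finset.sum_congr rfl fun i _ => ?_
    rw [h1]
  obtain ⟨N, ψ, hN, hψ⟩ := hTBR C (ULift.{u} (ZM M)) (2 * n) f₀ (hT M n hM hmn) hcoc
  have hg1 : Inv (fun l => e (homL ψ l)) := fun w l => by
    show e (homL ψ (l.map fun x => w * x)) = e (homL ψ l)
    rw [homL_mul]
  obtain ⟨g', hg', hc⟩ := hNRM C (ZM M) (2 * n) (fun l => (N : ZM M) * f l)
    (fun l => e (homL ψ l)) (TCH.isC_mul hf _) hg1 (by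
      intro l hl
      obtain ⟨x, rfl⟩ := exists_ofFn (m := 2 * n + 2) l hl
      rw [← cobL_map, cob_homL ψ x (fun i => (x i.castSucc)⁻¹ * x i.succ) (fun i => rfl)]
      refine (congrArg e (hψ fun i => (x i.castSucc)⁻¹ * x i.succ)).trans ?_
      rw [map_mul, map_natCast, ← h1 x, homL_ofFn]
      rfl)
  exact ⟨N, g', hN, hg', hc⟩

end Pool.Agent.SM4
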