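import Pool.Agent.SM4.St

/-!
# SM4, module TOT: the total
-/

set_option autoImplicit false

open Pool.Agent.SUR

noncomputable section

namespace Pool.Agent.SM4

universe u v

namespace TOT

lemma spl_sub {Z R : Type*} [AddCommGroup R] (F G : List Z → Z → List Z → R) (l : List Z) :
    ∀ a : List Z, spl (fun a z b => F a z b - G a z b) a l = spl F a l - spl G a l := by
  induction l with
  | nil => intro a; simp [spl]
  | cons z b ih =>
    intro a
    simp only [spl, ih]
    abel

lemma spl_zero {Z R : Type*} [AddCommMonoid R] (l : List Z) :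
    ∀ a : List Z, spl (fun _ _ _ => (0 : R)) a l = 0 := by
  induction l with
  | nil => intro a; simp [spl]
  | cons z b ih =>
    intro a
    simp only [spl, ih, add_zero]

lemma Sk_congr {Z R : Type*} [Monoid Z] [AddCommMonoid R] (k : ℕ) :
    ∀ (f g : List Z → R) (q : Z) (w : List Z), (∀ m, m.length = 2 * k → f m = g m) →
      Sk k f q w = Sk k g q w := by
  induction k with
  | zero =>
    intro f g q w h
    exact h [] rfl
  | succ k ih =>
    intro f g q w h
    simp only [Sk]
    congr 1
    funext a z b
    apply ih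
    intro m hm
    apply h
    simp only [List.length_cons, hm]
    ring

lemma Sk_sub {Z R : Type*} [Monoid Z] [AddCommGroup R] (k : ℕ) :
    ∀ (f g : List Z → R) (q : Z) (w : List Z),
      Sk k (fun m => f m - g m) q w = Sk k f q w - Sk k g q w := by
  induction k with
  | zero =>
    intro f g q w
    rfl
  | succ k ih =>
    intro f g q w
    simp only [Sk, ih]
    exact spl_sub _ _ _ _

lemma Sk_zero {Z R : Type*} [Monoid Z] [AddCommMonoid R] (k : ℕ) :
    ∀ (q : Z) (w : List Z), Sk k (fun _ => (0 : R)) q w = 0 := by
  induction k with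
  | zero =>
    intro q w
    rfl
  | succ k ih =>
    intro q w
    simp only [Sk, ih]
    exact spl_zero _ _

lemma ins_zero {Z R : Type*} [Mul Z] [AddCommGroup R] (c : Z) (l : List Z) :
    ins c (fun _ => (0 : R)) l = 0 := by
  induction l with
  | nil => rfl
  | cons x l ih =>
    simp only [ins, ih, sub_zero]

end TOT

open TOT in
/-- TOT -/
theorem t_TOT (hIDN : S_IDN.{u, v}) : S_TOT.{u, v} := by
  intro Z R _ _ c hc r v Y hY q w hw
  obtain ⟨T, hT⟩ : ∃ T : ℕ → R, ∀ k, T k = Sk k (fun m => ins c (Y k) (q :: m)) q w :=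
    ⟨_, fun _ => rfl⟩
  have step : ∀ k, Sk (k + 1) (Y k) q w = T k - T (k + 1) := by
    intro k
    have e1 : Sk (k + 1) (Y k) q w =
        Sk (k + 1) (fun m => cobL (fun l => Y k (q :: l)) m - ins c (Y (k + 1)) (q :: m)) q w := by
      apply Sk_congr
      intro m hm
      have h1 := hY.cob k (q :: m) (by simp only [List.length_cons, hm]; ring)
      rw [cobL_cons] at h1
      have h2 : Y k m = cobL (fun l => Y k (q :: l)) m +
        (Y k m - cobL (fun l => Y k (q :: l)) m) := by ring
      rw [h2, h1]
      ring
    have hN : Nrm (fun l => Y k (q :: l)) := by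
      intro a x b
      exact (hY.isC k).nrm (q :: a) x b
    have e2 := hIDN Z R c hc k (fun l => Y k (q :: l)) hN q w hw
    have e3 : Sk k (fun m => Y k (q :: q :: m)) q w = 0 := by
      have : (fun m => Y k (q :: q :: m)) = fun _ => (0 : R) := by
        funext m
        exact (hY.isC k).nrm [] q m
      rw [this]
      exact Sk_zero k q w
    have e4 : T k = Sk k (fun m => Y k (q :: c * q :: m.map fun y => c * y)) q w -
        Sk k (ins c fun l => Y k (q :: l)) q w := by
      rw [hT, ← Sk_sub]
      rfl
    rw [e1, Sk_sub, hT (k + 1)]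
    have e5 : Sk (k + 1) (fun m => cobL (fun l => Y k (q :: l)) m) q w = T k := by
      rw [e4]
      refine e2.trans ?_
      show Sk k (fun m => Y k (q :: c * q :: m.map fun y => c * y)) q w -
        Sk k (fun m => Y k (q :: q :: m)) q w - Sk k (ins c fun l => Y k (q :: l)) q w = _
      rw [e3, sub_zero]
    rw [e5]
  have hsum : ∑ k ∈ Finset.range r, Sk (k + 1) (Y k) q w = T 0 - T r := by
    rw [Finset.sum_congr rfl fun k _ => step k, Finset.sum_range_sub']
  have hTr : T r = 0 := by
    rw [hT]
    have : Y r = fun _ => (0 : R) := funext fun l => hY.top r l le_rfl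
    rw [this]
    simp only [ins_zero]
    exact Sk_zero r q w
  have hT0 : T 0 = v := by
    rw [hT]
    show Y 0 [q, c * q] - 0 = v
    rw [sub_zero, hY.val]
  rw [hsum, hTr, hT0, sub_zero]

end Pool.Agent.SM4
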