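import Pool.Agent.SUR.Cond

/-!
# MP_e40716_gt (SM4): groups whose cohomology is torsion in large odd degrees; integral representations
-/

set_option autoImplicit false

namespace Pool.Agent.SM4

open Pool.Agent.SUR

universe u

/-- `H^(2 j + 1)(C; ℤ[1/M])` is a torsion group for all `j ≥ m` and all `M > 0`. -/
def TorH (m : ℕ) (C : Type u) [Group C] : Prop :=
  ∀ M j : ℕ, 0 < M → m ≤ j →
    ∀ x : groupCohomology (Rep.trivial (ULift.{u} (ZM M)) C (ULift.{u} (ZM M))) (2 * j + 1),
      ∃ N : ℕ, 0 < N ∧ N • x = 0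

/-- All groups `C` with an injective homomorphism to `G` have torsion groups `H^(2 j + 1)(C; ℤ[1/M])` for all
`j ≥ m` and all `M > 0`. -/
def TorSub (m : ℕ) (G : Type u) [Group G] : Prop :=
  ∀ (C : Type u) [Group C] (i : C →* G), Function.Injective i → TorH m C

/-- Each element of infinite order has infinite order in some integral representation. -/
def SepZ (G : Type u) [Group G] : Prop :=
  ∀ g : G, ¬IsOfFinOrder g → ∃ (k : ℕ) (ρ : G →* Matrix (Fin k) (Fin k) ℤ), ¬IsOfFinOrder (ρ g)

end Pool.Agent.SM4
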