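import Pool.Agent.SUR.OMAT
import Pool.Agent.SUR.OSYL
import Pool.Agent.SUR.OINN
import Pool.Agent.SUR.OTRJ
import Pool.Agent.SUR.OUTL
import Pool.Agent.SUR.RGRF
import Pool.Agent.SUR.RLSZ
import Pool.Agent.SUR.PFREE
import Pool.Agent.SM4.TDefs

/-!
# MP_e40716_gt (SM4): integral representations of automorphism groups and outer automorphism groups of free
# groups
-/

set_option autoImplicit false

open Pool.Agent.SUR

noncomputable section

namespace Pool.Agent.SM4

universe u

theorem sep_inj {G H : Type u} [Group G] [Group H] (f : G →* H)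
    (hf : Function.Injective f) (h : SepZ H) : SepZ G := by
  intro x hx
  obtain ⟨n, ρ, hρ⟩ := h (f x) fun h1 => by
    obtain ⟨k, hk, h2⟩ := isOfFinOrder_iff_pow_eq_one.1 h1
    refine hx (isOfFinOrder_iff_pow_eq_one.2 ⟨k, hk, hf ?_⟩)
    rw [map_pow, h2, map_one]
  exact ⟨n, ρ.comp f, hρ⟩

/-- Automorphism groups and outer automorphism groups of finitely generated free groups. -/
theorem sep_free (α Q : Type u) [Finite α] [Group Q] (q : MulAut (FreeGroup α) →* Q)
    (hq : Function.Surjective q)
    (hker : q.ker = ⊥ ∨ q.ker = (MulAut.conj (G := FreeGroup α)).range) : SepZ Q := by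
  have hfg : Group.FG (FreeGroup α) := inferInstance
  rcases hker with hker | hker
  · have hi : Function.Injective q := (MonoidHom.ker_eq_bot_iff q).1 hker
    let e : MulAut (FreeGroup α) ≃* Q := MulEquiv.ofBijective q ⟨hi, hq⟩
    exact sep_inj e.symm.toMonoidHom e.symm.injective
      ((t_RLSZ t_RGRF).2 (FreeGroup α) hfg (t_PFREE α))
  · exact t_OUTL t_RGRF t_OTRJ (FreeGroup α) hfg (t_OINN t_OMAT t_OSYL α) Q q hq hker

end Pool.Agent.SM4
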