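import Pool.Agent.SM4.P_IDN
import Pool.Agent.SM4.P_TOT
import Pool.Agent.SM4.P_DGC
import Pool.Agent.SM4.P_CWT
import Pool.Agent.SM4.P_RED
import Pool.Agent.SM4.P_CAR
import Pool.Agent.SM4.P_SWP
import Pool.Agent.SM4.P_PRM
import Pool.Agent.SM4.P_NIL
import Pool.Agent.SM4.P_NRM
import Pool.Agent.SM4.P_TBR
import Pool.Agent.SM4.P_TCH
import Pool.Agent.SM4.P_REP4
import Pool.Agent.SM4.CDefs
import Pool.Agent.SM4.Sep
import Pool.Agent.SM3.All
import Pool.Agent.SM2.Named

/-!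
# MP_e40716_gt (SM4): the condition `LCT` and the conclusions
-/

set_option autoImplicit false
set_option linter.unusedSectionVars false

open Matrix Pool.Agent.Lib25 Pool.Agent.KM Pool.Agent.SM1 Pool.Agent.SM2 Pool.Agent.SM3
open Pool.Agent.SUR (ZM)

noncomputable section

namespace Pool.Agent.SM4

universe u v w

theorem all_CWT : S_CWT.{u, v} := t_CWT (t_TOT t_IDN) t_DGC
theorem all_NIL : S_NIL.{u, v} := t_NIL (t_PRM t_SWP)
theorem all_TCH : S_TCH.{u} := t_TCH t_TBR t_NRM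
theorem all_REP4 : S_REP4.{u} :=
  t_REP4 all_CWT t_RED t_CAR all_NIL Pool.Agent.SUR.t_LMONO all_LCORE Pool.Agent.SUR.t_LPOW
    Pool.Agent.SUR.t_LALG (Pool.Agent.SUR.t_LEIG
      (Pool.Agent.SUR.t_VALG Pool.Agent.SUR.t_VALF Pool.Agent.SUR.t_NFH Pool.Agent.SUR.t_LCO))

theorem addH_dvd {F : Type u} [Ring F] {A : Subring F} {N N' : ℕ} (hN : N' ∣ N) (h : AddH A N) :
    AddH A N' := by
  intro a ha
  obtain ⟨M, ψ, hM, hMN, hψ⟩ := h a ha
  exact ⟨M, ψ, hM, hMN.coprime_dvd_right hN, hψ⟩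

theorem ct_dvd {F : Type u} [Field F] {A : Subring F} {n N N' : ℕ} (hN : N' ∣ N) {G : Type u}
    [Group G] {g : G} (h : CT A n N g) : CT A n N' g :=
  ⟨fun hc => addH_dvd hN (h.1 hc), h.2⟩

/-- The weights. -/
theorem cw_of_ct {F : Type u} [Field F] {S : Set F} (hS : S.Finite) {n N : ℕ} (hn : 0 < n)
    {G : Type u} [Group G] {g : G} (h : CT (Subring.closure S) n N g) :
    ∃ M : ℕ, 0 < M ∧ M.Coprime N ∧ CW M (n * n + n + 2) (cel g) := by
  obtain ⟨h1, k, ρ, hk | hT, h2⟩ := h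
  · subst hk
    exact all_REP F S hS k N hn g ⟨h1, Or.inl ⟨ρ, h2⟩⟩
  · obtain ⟨M, hM, hMN, v, W, hv, hW, hD⟩ := all_REP4 F S hS n k N hn g h1
      (fun M hM => all_TCH _ n hT M hM) ⟨ρ, h2⟩
    exact ⟨M, hM, hMN, v, W, hv, hW, Pool.Agent.SUR.t_LMONO _ _ _ _ _ _ _ (by nlinarith) hD⟩

/-- Degree `-1`. -/
theorem s_neg {G : Type u} [Group G] {Q : Type v} [Group Q] [Finite Q] (h : LCT (Nat.card Q) G)
    (π : G →* Q) : SurjSeen π := by
  have hL : LZW π := by
    intro G0 hG0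
    obtain ⟨G1, hle, F, hF, S, n, hS, hn, hG⟩ := h G0 hG0
    refine ⟨G1, hle, n * n + n + 2, fun g hg => ?_⟩
    exact cw_of_ct hS hn (ct_dvd (orderOf_dvd_natCard _) (hG g (hg g rfl)))
  intro x
  obtain ⟨n, s, hn, hs⟩ := all_FIN3 π hL x
  exact ⟨n, s, hn, by rw [map_nsmul]; exact hs⟩

/-- Degree `0`. -/
theorem s_zero {G : Type u} [Group G] {Q : Type v} [Group Q] [Finite Q] (h : LCT (Nat.card Q) G)
    (π : G →* Q) (f : G →* Multiplicative ℤ) : K0Seen π f := by
  have hL : LZ4 π f := by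
    intro G0 hG0
    obtain ⟨G1, hle, F, hF, S, n, hS, hn, hG⟩ := h G0 hG0
    refine ⟨G1, hle, n * n + n + 2, fun g hg => ?_⟩
    by_cases hfin : IsOfFinOrder g
    · right
      intro c hc
      by_contra hfc
      exact hg ⟨g, c, hfin, hc, hfc, rfl⟩
    · left
      exact cw_of_ct hS hn (ct_dvd (orderOf_dvd_natCard _) (hG g hfin))
  exact fun z => t_FIN4 all_FNS4 t_COL0 π f hL z

namespace INT

lemma inj_cast : Function.Injective
    (Int.castRingHom (Subring.closure (∅ : Set (ULift.{u} ℚ)))) := by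
  intro a b h
  have h1 : ((a : Subring.closure (∅ : Set (ULift.{u} ℚ))) : ULift.{u} ℚ) =
      ((b : Subring.closure (∅ : Set (ULift.{u} ℚ))) : ULift.{u} ℚ) := congrArg Subtype.val h
  have h2 : (a : ULift.{u} ℚ) = (b : ULift.{u} ℚ) := by simpa using h1
  have h3 : (a : ℚ) = (b : ℚ) := by
    have := congrArg ULift.down h2
    simpa using this
  exact_mod_cast h3

theorem torH_mono {m n : ℕ} (h : m ≤ n) {C : Type u} [Group C] (hC : TorH m C) : TorH n C :=
  fun M j hM hj => hC M j hM (h.trans hj)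

end INT

open INT in
/-- Groups whose elements of infinite order have infinite order in some integral representation, and all
of whose subgroups have torsion cohomology in large odd degrees. -/
theorem lct_sep (N m : ℕ) (G : Type u) [Group G] (hG : SepZ G) (hT : TorSub m G) : LCT N G := by
  intro G0 _
  refine ⟨⊤, le_top, ULift.{u} ℚ, inferInstance, ∅, m + 1, Set.finite_empty, Nat.succ_pos m,
    fun g hg => ⟨fun _ a ha => ⟨1, HOM.ps.{u}, one_pos, Nat.coprime_one_left _, HOM.ps_ne a ha⟩,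
      ?_⟩⟩
  have hg' : ¬IsOfFinOrder (g : G) := fun h => hg (by
    obtain ⟨l, hl, h1⟩ := isOfFinOrder_iff_pow_eq_one.1 h
    exact isOfFinOrder_iff_pow_eq_one.2 ⟨l, hl, Subtype.ext h1⟩)
  obtain ⟨k, ρ, hρ⟩ := hG g hg'
  let i : Subgroup.centralizer {g} →* G :=
    (⊤ : Subgroup G).subtype.comp (Subgroup.centralizer {g}).subtype
  have hi : Function.Injective i :=
    (⊤ : Subgroup G).subtype_injective.comp (Subgroup.centralizer {g}).subtype_injective
  refine ⟨k, ((Int.castRingHom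
    (Subring.closure (∅ : Set (ULift.{u} ℚ)))).mapMatrix.toMonoidHom).comp (ρ.comp i),
    Or.inr (torH_mono (Nat.le_succ m) (hT _ i hi)), fun h => hρ ?_⟩
  rw [isOfFinOrder_iff_pow_eq_one] at h ⊢
  obtain ⟨l, hl, h⟩ := h
  refine ⟨l, hl, ?_⟩
  have hinj : Function.Injective ((Int.castRingHom
      (Subring.closure (∅ : Set (ULift.{u} ℚ)))).mapMatrix (m := Fin k)) := by
    intro A B hAB
    ext i j
    exact inj_cast (congrFun (congrFun hAB i) j)
  apply hinj
  rw [map_pow, map_one]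
  exact h

open Pool.Agent.SUR.LLINx in
theorem lct_inj (N : ℕ) {F : Type u} [Field F] {n : ℕ} (R : Subring F) {G : Type u} [Group G]
    (ρ : G →* GL (Fin n) F) (hρ : Function.Injective ρ)
    (hR : ∀ g i j, (ρ g : Matrix (Fin n) (Fin n) F) i j ∈ R) (hD : CharZero F → DetZ R) :
    LCT N G := by
  intro G0 hG0
  obtain ⟨S, hS, hSR, h⟩ := lnr_inj R ρ hρ hR G0 hG0
  have hA : CharZero F → AddH (Subring.closure S) N := fun hc => CLS.addH (hD hc) hSR _
  rcases Nat.eq_zero_or_pos n with hn | hn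
  · subst hn
    refine ⟨G0, le_rfl, F, inferInstance, S, 1, hS, one_pos, fun g hg => ?_⟩
    obtain ⟨ρ', h1⟩ := h g hg
    exact absurd (by rw [Subsingleton.elim (ρ' (cel g)) 1]; exact IsOfFinOrder.one) h1
  · refine ⟨G0, le_rfl, F, inferInstance, S, n, hS, hn, fun g hg => ⟨hA, ?_⟩⟩
    obtain ⟨ρ', h1⟩ := h g hg
    exact ⟨n, ρ', Or.inl rfl, h1⟩

/-- Subgroups of `GL_n(ℤ[t_i, i ∈ σ])`. -/
theorem lct_poly (N : ℕ) (σ : Type u) (n : ℕ) (G : Subgroup (GL (Fin n) (MvPolynomial σ ℤ))) :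
    LCT N G := by
  let F := FractionRing (MvPolynomial σ ℤ)
  let f : MvPolynomial σ ℤ →+* F := algebraMap (MvPolynomial σ ℤ) F
  have hf : Function.Injective f := IsFractionRing.injective (MvPolynomial σ ℤ) F
  let ρ : G →* GL (Fin n) F := (Matrix.GeneralLinearGroup.map f).comp G.subtype
  have hρ : Function.Injective ρ := by
    intro a b h
    apply Subtype.ext
    apply Units.ext
    apply Matrix.ext
    intro i j
    apply hf
    have h1 := congrArg (fun x : GL (Fin n) F => (x : Matrix (Fin n) (Fin n) F) i j) h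
    exact h1
  refine lct_inj N f.range ρ hρ (fun g i j => ⟨_, rfl⟩) (fun _ => ?_)
  rintro ⟨_, a, rfl⟩ ha
  have ha0 : a ≠ 0 := by
    rintro rfl
    exact ha (Subtype.ext (map_zero f))
  obtain ⟨d, hd⟩ := MvPolynomial.ne_zero_iff.1 ha0
  let e : MvPolynomial σ ℤ ≃+ f.range :=
    AddEquiv.ofBijective f.rangeRestrict.toAddMonoidHom
      ⟨fun x y h => hf (congrArg Subtype.val h), fun y => by
        obtain ⟨_, a, rfl⟩ := y
        exact ⟨a, rfl⟩⟩
  let ψ : MvPolynomial σ ℤ →+ ℤ :=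
    { toFun := fun x => x.coeff d
      map_zero' := MvPolynomial.coeff_zero d
      map_add' := fun x y => MvPolynomial.coeff_add d x y }
  refine ⟨ψ.comp e.symm.toAddMonoidHom, ?_⟩
  have h1 : e.symm ⟨f a, a, rfl⟩ = a := by
    rw [AddEquiv.symm_apply_eq]
    rfl
  change MvPolynomial.coeff d (e.symm ⟨f a, a, rfl⟩) ≠ 0
  rw [h1]
  exact hd

/-- A homomorphism to the integers gives a representation. -/
theorem rep_of_hom {C : Type u} [Group C] (g : C) (f : C →* Multiplicative ℤ) (hf : f g ≠ 1) :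
    ∃ ρ : C →* Matrix (Fin 2) (Fin 2) (Subring.closure (∅ : Set (ULift.{u} ℚ))),
      ¬IsOfFinOrder (ρ g) := by
  let f' : C →* Multiplicative (Subring.closure (∅ : Set (ULift.{u} ℚ))) :=
    (AddMonoidHom.toMultiplicative
      (Int.castAddHom (Subring.closure (∅ : Set (ULift.{u} ℚ))))).comp f
  have hf' : ∀ z, (f' z).toAdd = ((f z).toAdd : Subring.closure (∅ : Set (ULift.{u} ℚ))) :=
    fun z => rfl
  refine ⟨Pool.Agent.SUR.LLINx.uni f', fun h => hf ?_⟩
  obtain ⟨k, hk, hk1⟩ := isOfFinOrder_iff_pow_eq_one.1 h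
  rw [← map_pow] at hk1
  have h1 := congrFun (congrFun hk1 0) 1
  have h2 : (f' (g ^ k)).toAdd = 0 := by
    simpa [Pool.Agent.SUR.LLINx.uni] using h1
  rw [hf'] at h2
  have h3 : (f (g ^ k)).toAdd = 0 := by
    have h4 : (((f (g ^ k)).toAdd : ℤ) : ULift.{u} ℚ) = 0 := by
      have h5 := congrArg Subtype.val h2
      simpa using h5
    have h6 : (((f (g ^ k)).toAdd : ℤ) : ℚ) = 0 := congrArg ULift.down h4
    exact_mod_cast h6
  rw [map_pow, toAdd_pow] at h3
  exact (smul_eq_zero.1 h3).resolve_left hk.ne'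

/-- Groups with homomorphisms from centralisers to `ℤ`. -/
theorem lct_lz (N : ℕ) {G : Type u} [Group G] (h : LZ (MonoidHom.id G)) : LCT N G := by
  intro G0 hG0
  obtain ⟨G1, hle, hG1⟩ := h G0 hG0
  refine ⟨G1, hle, ULift.{u} ℚ, inferInstance, ∅, 2, Set.finite_empty, two_pos, fun g hg =>
    ⟨fun _ a ha => ⟨1, HOM.ps.{u}, one_pos, Nat.coprime_one_left _, HOM.ps_ne a ha⟩, ?_⟩⟩
  obtain ⟨f, hf⟩ := hG1 g (fun g' hg' => by
    have h1 : g' = g := Subtype.ext hg'
    rw [h1]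
    exact hg)
  obtain ⟨ρ, hρ⟩ := rep_of_hom (cel g) f hf
  exact ⟨2, ρ, Or.inl rfl, hρ⟩

/-- Linear groups in positive characteristic, or all of whose unipotent elements have finite order. -/
theorem lct_unip (N : ℕ) {F : Type u} [Field F] {n : ℕ} (G : Subgroup (GL (Fin n) F))
    (h : TorsUnip G) : LCT N G := lct_lz N (n_linear G h (MonoidHom.id G))

theorem torSub_inj {m : ℕ} {G H : Type u} [Group G] [Group H] (f : G →* H)
    (hf : Function.Injective f) (h : TorSub m H) : TorSub m G :=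
  fun C _ i hi => h C (f.comp i) (hf.comp hi)

/-- Subgroups of automorphism groups and of outer automorphism groups of finitely generated free
groups. -/
theorem lct_free (N m : ℕ) (α Q : Type u) [Finite α] [Group Q] (q : MulAut (FreeGroup α) →* Q)
    (hq : Function.Surjective q)
    (hker : q.ker = ⊥ ∨ q.ker = (MulAut.conj (G := FreeGroup α)).range) (hT : TorSub m Q)
    (G : Subgroup Q) : LCT N G :=
  lct_sep N m G (sep_inj G.subtype G.subtype_injective (sep_free α Q q hq hker))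
    (torSub_inj G.subtype G.subtype_injective hT)

end Pool.Agent.SM4
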