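import Pool.Agent.SM4.TDefs
import Pool.Agent.SUR.LCUP
import Pool.Agent.SUR.LKERD

/-!
# MP_e40716_gt (SM4): centralisers whose cohomology is torsion in large odd degrees: definitions

Cochains are functions on lists of points of a group `Z`; a cochain of degree `n` is given by its values
on the lists of length `n + 1`; `cobL` (SUR/CondE.lean) is the homogeneous coboundary.

* `ins c f` : the operator of degree `-1` given by the central element `c`,
  `(ins c f) [x_0, …, x_n] = ∑_j (-1)^j f [x_0, …, x_j, c x_j, …, c x_n]`.
* `IsC f` : `f` is invariant and normalised. `Per c f`: `f` does not change if a point is multiplied by `c`.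
* `Cart c r v Y` : `Y 0, …, Y (r - 1)` are cochains of degrees `1, 3, …, 2 r - 1` with
  `cobL (Y k) = - ins c (Y (k + 1))`, `Y r = 0` and `Y 0 [z, c z] = v`.
* `TorC Z R m` : the cohomology is torsion in the odd degrees `2 n + 1`, `n ≥ m` (homogeneous normalised
  cochains); `TorH` (`TDefs.lean`) : the same with `groupCohomology`.
* `spl`, `Sk` : sums over the edges of closed words.
* `edg`, `EA`, `EdK`, `dbl`, `swp` : functions of the edges of a list of points.
-/

set_option autoImplicit false

noncomputable section

namespace Pool.Agent.SM4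

open Pool.Agent.SUR

universe u v

/-- `(ins c f) [x_0, …, x_n] = ∑_j (-1)^j f [x_0, …, x_j, c x_j, …, c x_n]` -/
def ins {Z R : Type*} [Mul Z] [AddCommGroup R] (c : Z) : (List Z → R) → List Z → R
  | _, [] => 0
  | f, x :: l => f (x :: c * x :: l.map fun y => c * y) - ins c (fun m => f (x :: m)) l

/-- `f` vanishes if two consecutive points agree. -/
def Nrm {Z R : Type*} [Zero R] (f : List Z → R) : Prop := ∀ a x b, f (a ++ x :: x :: b) = 0

/-- `f` is invariant under left translations. -/
def Inv {Z R : Type*} [Mul Z] (f : List Z → R) : Prop := ∀ w l, f (l.map fun x => w * x) = f l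

/-- `f` does not change if one of the points is multiplied by `c`. -/
def Per {Z R : Type*} [Mul Z] (c : Z) (f : List Z → R) : Prop :=
  ∀ a x b, f (a ++ c * x :: b) = f (a ++ x :: b)

/-- Invariant normalised cochains. -/
structure IsC {Z R : Type*} [Mul Z] [Zero R] (f : List Z → R) : Prop where
  inv : Inv f
  nrm : Nrm f

/-- Cochains `Y 0, …, Y (r - 1)` of degrees `1, 3, …, 2 r - 1` with `cobL (Y k) = - ins c (Y (k + 1))` and
`Y 0 [z, c z] = v`. -/
structure Cart {Z R : Type*} [Group Z] [CommRing R] (c : Z) (r : ℕ) (v : R) (Y : ℕ → List Z → R) :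
    Prop where
  isC : ∀ k, IsC (Y k)
  top : ∀ k l, r ≤ k → Y k l = 0
  cob : ∀ k l, l.length = 2 * k + 3 → cobL (Y k) l = -ins c (Y (k + 1)) l
  val : ∀ z, Y 0 [z, c * z] = v

/-- The cohomology of `Z` with coefficients in `R` is torsion in the odd degrees `2 n + 1`, `n ≥ m`
(homogeneous normalised cochains). -/
def TorC (Z R : Type*) [Group Z] [CommRing R] (m : ℕ) : Prop :=
  ∀ (n : ℕ) (f : List Z → R), m ≤ n → IsC f → (∀ l, l.length = 2 * n + 3 → cobL f l = 0) →
    ∃ (N : ℕ) (g : List Z → R), 0 < N ∧ IsC g ∧
      ∀ l, l.length = 2 * n + 2 → cobL g l = (N : R) * f l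

/-- The sum of the `F a z b` over the decompositions `a ++ z :: b` of the second list; `a` starts with
the first list. -/
def spl {Z R : Type*} [AddCommMonoid R] (F : List Z → Z → List Z → R) : List Z → List Z → R
  | _, [] => 0
  | a, z :: b => F a z b + spl F (a ++ [z]) b

/-- The sum of the values of `f` at the lists `[y_{i_1}, y_{i_1 + 1}, y_{i_2}, y_{i_2 + 1}, …]` with `k`
edges, `0 ≤ i_1 < l`, `i_j < i_{j + 1} ≤ i_j + l`, where `y_0 = q`, `y_{i + 1} = y_i z_i` and the `z_i` are
the letters of the word `w`, continued with period `l = length w`. -/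
def Sk {Z R : Type*} [Monoid Z] [AddCommMonoid R] : ℕ → (List Z → R) → Z → List Z → R
  | 0, f, _, _ => f []
  | k + 1, f, q, w =>
    spl (fun a z b => Sk k (fun m => f (q * a.prod :: q * a.prod * z :: m)) (q * a.prod * z)
      (b ++ (a ++ [z]))) [] w

/-- The edges of a list of points. -/
def edg {Z : Type*} : List Z → List (Z × Z)
  | x :: y :: l => (x, y) :: edg (y :: l)
  | _ => []

/-- Double the entry `i` of a list. -/
def dbl {E : Type*} : ℕ → List E → List E
  | 0, e :: L => e :: e :: L
  | i + 1, e :: L => e :: dbl i L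
  | _, [] => []

/-- Exchange the entries `i` and `i + 1` of a list. -/
def swp {E : Type*} : ℕ → List E → List E
  | 0, e :: e' :: L => e' :: e :: L
  | i + 1, e :: L => e :: swp i L
  | _, L => L

/-- Additive in each edge. -/
def EA {Z R : Type*} [Add R] (K : List (Z × Z) → R) : Prop :=
  ∀ a x y w b, K (a ++ (x, y) :: b) + K (a ++ (y, w) :: b) = K (a ++ (x, w) :: b)

/-- Functions of `n` edges: additive in each edge, invariant, and unchanged if an end of an edge is
multiplied by `c`. -/
structure EdK {Z R : Type*} [Mul Z] [Add R] (c : Z) {n : ℕ} (K : (Fin n → Z × Z) → R) : Prop where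
  add : ∀ e i x y w, K (Function.update e i (x, y)) + K (Function.update e i (y, w)) =
    K (Function.update e i (x, w))
  inv : ∀ w e, K (fun i => (w * (e i).1, w * (e i).2)) = K e
  per1 : ∀ e i x y, K (Function.update e i (c * x, y)) = K (Function.update e i (x, y))
  per2 : ∀ e i x y, K (Function.update e i (x, c * y)) = K (Function.update e i (x, y))

/-- The double difference of `B` at two edges. -/
def PD {Z R : Type*} [Sub R] [Add R] (B : Z → Z → R) (e e' : Z × Z) : R :=
  B e.2 e'.2 - B e.1 e'.2 - B e.2 e'.1 + B e.1 e'.1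

end Pool.Agent.SM4
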