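import Pool.Agent.SM4.Cond

/-!
# MP_e40716_gt (SM4): the clauses are in `SM4/Cond.lean`
-/
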