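import Pool.Agent.SM4.St

/-!
# MP_e40716_gt (SM4), IDN: the boundary of the sum over closed words
-/

set_option autoImplicit false

noncomputable section

namespace Pool.Agent.SM4

open Pool.Agent.SUR

universe u v

namespace IDN

section spl

variable {Z R : Type*}

lemma spl_congr [AddCommMonoid R] (F G : List Z → Z → List Z → R) (b : List Z) : ∀ a : List Z,
    (∀ p z s, b = p ++ z :: s → F (a ++ p) z s = G (a ++ p) z s) → spl F a b = spl G a b := by
  induction b with
  | nil =>
    intro a _
    rfl
  | cons z b ih =>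
    intro a h
    have h1 : F a z b = G a z b := by
      have h0 := h [] z b rfl
      rwa [List.append_nil] at h0
    have h2 : spl F (a ++ [z]) b = spl G (a ++ [z]) b := by
      refine ih _ fun p x s hs => ?_
      have h0 := h (z :: p) x s (by rw [hs]; rfl)
      rwa [List.append_cons] at h0
    change F a z b + spl F (a ++ [z]) b = G a z b + spl G (a ++ [z]) b
    rw [h1, h2]

lemma spl_zero [AddCommMonoid R] (b : List Z) : ∀ a : List Z,
    spl (fun _ _ _ => (0 : R)) a b = 0 := by
  induction b with
  | nil =>
    intro a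
    rfl
  | cons z b ih =>
    intro a
    change (0 : R) + spl (fun _ _ _ => (0 : R)) (a ++ [z]) b = 0
    rw [ih, add_zero]

lemma spl_add [AddCommMonoid R] (F G : List Z → Z → List Z → R) (b : List Z) : ∀ a : List Z,
    spl (fun p z s => F p z s + G p z s) a b = spl F a b + spl G a b := by
  induction b with
  | nil =>
    intro a
    exact (add_zero (0 : R)).symm
  | cons z b ih =>
    intro a
    change (F a z b + G a z b) + spl (fun p z s => F p z s + G p z s) (a ++ [z]) b =
      (F a z b + spl F (a ++ [z]) b) + (G a z b + spl G (a ++ [z]) b)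
    rw [ih]
    exact add_add_add_comm _ _ _ _

lemma spl_sub [AddCommGroup R] (F G : List Z → Z → List Z → R) (b : List Z) : ∀ a : List Z,
    spl (fun p z s => F p z s - G p z s) a b = spl F a b - spl G a b := by
  induction b with
  | nil =>
    intro a
    exact (sub_zero (0 : R)).symm
  | cons z b ih =>
    intro a
    change (F a z b - G a z b) + spl (fun p z s => F p z s - G p z s) (a ++ [z]) b =
      (F a z b + spl F (a ++ [z]) b) - (G a z b + spl G (a ++ [z]) b)
    rw [ih]
    abel

lemma spl_shift [AddCommMonoid R] (F : List Z → Z → List Z → R) (c b : List Z) : ∀ a : List Z,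
    spl F (c ++ a) b = spl (fun p z s => F (c ++ p) z s) a b := by
  induction b with
  | nil =>
    intro a
    rfl
  | cons z b ih =>
    intro a
    change F (c ++ a) z b + spl F (c ++ a ++ [z]) b =
      F (c ++ a) z b + spl (fun p z s => F (c ++ p) z s) (a ++ [z]) b
    rw [← ih, List.append_assoc]

lemma spl_append [AddCommMonoid R] (F : List Z → Z → List Z → R) (u' u : List Z) :
    ∀ a : List Z, spl F a (u ++ u') =
      spl (fun p z s => F p z (s ++ u')) a u + spl F (a ++ u) u' := by
  induction u with
  | nil =>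
    intro a
    change spl F a u' = 0 + spl F (a ++ []) u'
    rw [List.append_nil, zero_add]
  | cons z u ih =>
    intro a
    change F a z (u ++ u') + spl F (a ++ [z]) (u ++ u') =
      (F a z (u ++ u') + spl (fun p z s => F p z (s ++ u')) (a ++ [z]) u) +
        spl F (a ++ z :: u) u'
    rw [ih, add_assoc, List.append_cons a z u]

end spl

section Sk

variable {Z R : Type*} [Monoid Z]

lemma Sk_zero [AddCommMonoid R] (k : ℕ) : ∀ (q : Z) (w : List Z),
    Sk k (fun _ => (0 : R)) q w = 0 := by
  induction k with
  | zero =>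
    intro q w
    rfl
  | succ k ih =>
    intro q w
    refine (spl_congr _ (fun _ _ _ => (0 : R)) w [] fun p z s _ => ?_).trans (spl_zero w [])
    exact ih _ _

lemma Sk_add [AddCommMonoid R] (k : ℕ) : ∀ (f g : List Z → R) (q : Z) (w : List Z),
    Sk k (fun m => f m + g m) q w = Sk k f q w + Sk k g q w := by
  induction k with
  | zero =>
    intro f g q w
    rfl
  | succ k ih =>
    intro f g q w
    refine (spl_congr _ _ w [] fun p z s _ => ?_).trans (spl_add _ _ w [])
    exact ih _ _ _ _

lemma Sk_sub [AddCommGroup R] (k : ℕ) : ∀ (f g : List Z → R) (q : Z) (w : List Z),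
    Sk k (fun m => f m - g m) q w = Sk k f q w - Sk k g q w := by
  induction k with
  | zero =>
    intro f g q w
    rfl
  | succ k ih =>
    intro f g q w
    refine (spl_congr _ _ w [] fun p z s _ => ?_).trans (spl_sub _ _ w [])
    exact ih _ _ _ _

/-- translation -/
lemma Sk_trans [AddCommMonoid R] (k : ℕ) (t : Z) : ∀ (f : List Z → R) (q : Z) (w : List Z),
    Sk k f (t * q) w = Sk k (fun m => f (m.map fun y => t * y)) q w := by
  induction k with
  | zero =>
    intro f q w
    rfl
  | succ k ih =>
    intro f q w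
    refine spl_congr _ _ w [] fun p z s _ => ?_
    have e1 : t * q * ([] ++ p).prod = t * (q * ([] ++ p).prod) := mul_assoc _ _ _
    have e2 : t * (q * ([] ++ p).prod) * z = t * (q * ([] ++ p).prod * z) := mul_assoc _ _ _
    rw [e1, e2, ih]
    rfl

/-- the first step of the sum -/
lemma Sk_succ [AddCommMonoid R] (k : ℕ) (f : List Z → R) (q : Z) (w : List Z) :
    Sk (k + 1) f q w = spl (fun a z b =>
      Sk k (fun m => f (q * a.prod :: q * a.prod * z :: m)) (q * a.prod * z)
        (b ++ (a ++ [z]))) [] w := rfl

end Sk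

/-- a telescoping sum over the letters -/
lemma tel {Z R : Type*} [Monoid Z] [AddCommGroup R] (Φ : Z → List Z → R) (q : Z) (w : List Z) :
    ∀ a : List Z, spl (fun a z b => Φ (q * a.prod * z) (b ++ (a ++ [z])) -
      Φ (q * a.prod) (z :: (b ++ a))) a w =
      Φ (q * (a ++ w).prod) (a ++ w) - Φ (q * a.prod) (w ++ a) := by
  induction w with
  | nil =>
    intro a
    change (0 : R) = Φ (q * (a ++ []).prod) (a ++ []) - Φ (q * a.prod) ([] ++ a)
    rw [List.append_nil, List.nil_append, sub_self]
  | cons z b ih =>
    intro a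
    change (Φ (q * a.prod * z) (b ++ (a ++ [z])) - Φ (q * a.prod) (z :: (b ++ a))) +
      spl _ (a ++ [z]) b = _
    rw [ih]
    have e1 : (a ++ [z]).prod = a.prod * z := by
      rw [List.prod_append, List.prod_singleton]
    rw [← List.append_cons, e1, mul_assoc q]
    rw [List.cons_append]
    abel

section main

variable {Z R : Type*} [Group Z] [CommRing R]

/-- rotation of the word -/
lemma rot (c : Z) (hc : ∀ z, c * z = z * c) (k : ℕ) (f : List Z → R) (q z : Z) (u : List Z)
    (h : z * u.prod = c) :
    Sk (k + 1) f (q * z) (u ++ [z]) = Sk (k + 1) f q (z :: u) -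
      Sk k (fun m => f (q :: q * z :: m)) (q * z) (u ++ [z]) +
      Sk k (fun m => f (c * q :: c * (q * z) :: m)) (c * (q * z)) (u ++ [z]) := by
  have e1 : q * z * u.prod = c * q := by rw [mul_assoc, h, hc]
  have h1 : Sk (k + 1) f q (z :: u) =
      Sk k (fun m => f (q :: q * z :: m)) (q * z) (u ++ [z]) +
        spl (fun p x s => Sk k (fun m => f (q * z * p.prod :: q * z * p.prod * x :: m))
          (q * z * p.prod * x) (s ++ [z] ++ (p ++ [x]))) [] u := by
    rw [Sk_succ]
    change Sk k (fun m => f (q * ([] : List Z).prod :: q * ([] : List Z).prod * z :: m))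
      (q * ([] : List Z).prod * z) (u ++ ([] ++ [z])) + spl _ ([] ++ [z]) u = _
    rw [List.prod_nil, mul_one, List.nil_append]
    congr 1
    rw [← List.append_nil [z], spl_shift]
    refine spl_congr _ _ u [] fun p x s _ => ?_
    have e2 : ([z] ++ ([] ++ p)).prod = z * ([] ++ p).prod := by
      rw [List.prod_append, List.prod_singleton]
    have e3 : s ++ (([z] ++ ([] ++ p)) ++ [x]) = s ++ ([z] ++ []) ++ (([] ++ p) ++ [x]) := by
      simp only [List.append_assoc, List.nil_append, List.append_nil]
    rw [e2, e3, mul_assoc q z]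
  have h2 : Sk (k + 1) f (q * z) (u ++ [z]) =
      spl (fun p x s => Sk k (fun m => f (q * z * p.prod :: q * z * p.prod * x :: m))
          (q * z * p.prod * x) (s ++ [z] ++ (p ++ [x]))) [] u +
        Sk k (fun m => f (c * q :: c * (q * z) :: m)) (c * (q * z)) (u ++ [z]) := by
    rw [Sk_succ, spl_append]
    congr 1
    change Sk k (fun m => f (q * z * ([] ++ u).prod :: q * z * ([] ++ u).prod * z :: m))
      (q * z * ([] ++ u).prod * z) ([] ++ (([] ++ u) ++ [z])) + 0 = _
    rw [add_zero, List.nil_append, List.nil_append, e1, mul_assoc c q z]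
  rw [h1, h2]
  abel

omit [Group Z] in
/-- the coboundary at a list with two first points -/
lemma cobL_two (f : List Z → R) (y y' : Z) (m : List Z) :
    cobL f (y :: y' :: m) = f (y' :: m) - f (y :: m) + cobL (fun m => f (y :: y' :: m)) m := by
  rw [cobL_cons, cobL_cons]
  ring

lemma ins_two (c : Z) (f : List Z → R) (y y' : Z) (m : List Z) :
    ins c f (y :: y' :: m) = f (y :: c * y :: c * y' :: m.map fun x => c * x) -
      f (y :: y' :: c * y' :: m.map fun x => c * x) + ins c (fun m => f (y :: y' :: m)) m := by
  change f (y :: c * y :: c * y' :: m.map fun x => c * x) -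
    (f (y :: y' :: c * y' :: m.map fun x => c * x) - ins c (fun m => f (y :: y' :: m)) m) = _
  ring

/-- products of rotated words -/
lemma prod_rot (c : Z) (hc : ∀ z, c * z = z * c) (a : List Z) (z : Z) (b : List Z)
    (h : (a ++ z :: b).prod = c) :
    z * (b ++ a).prod = c ∧ (b ++ (a ++ [z])).prod = c := by
  rw [List.prod_append, List.prod_cons] at h
  have h1 : z * b.prod = a.prod⁻¹ * c := by rw [← h, inv_mul_cancel_left]
  have h2 : z * (b ++ a).prod = c := by
    rw [List.prod_append, ← mul_assoc, h1, mul_assoc, hc, inv_mul_cancel_left]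
  refine ⟨h2, ?_⟩
  rw [← List.append_assoc, List.prod_append, List.prod_singleton]
  have h3 : (b ++ a).prod = z⁻¹ * c := by rw [← h2, inv_mul_cancel_left]
  rw [h3, mul_assoc, hc, inv_mul_cancel_left]

/-- the summand of the recursion -/
lemma summand (c : Z) (hc : ∀ z, c * z = z * c) (k : ℕ)
    (ih : ∀ f : List Z → R, Nrm f → ∀ (q : Z) (w : List Z), w.prod = c →
      Sk (k + 1) (cobL f) q w = Sk k (fun m => f (c * q :: m.map fun y => c * y)) q w -
        Sk k (fun m => f (q :: m)) q w - Sk k (ins c f) q w)
    (f : List Z → R) (hf : Nrm f) (y z : Z) (a b : List Z) (h1 : z * (b ++ a).prod = c)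
    (h2 : (b ++ (a ++ [z])).prod = c) :
    Sk (k + 1) (fun m => cobL f (y :: y * z :: m)) (y * z) (b ++ (a ++ [z])) =
      (Sk (k + 1) (fun m => f (y * z :: m)) (y * z) (b ++ (a ++ [z])) -
        Sk (k + 1) (fun m => f (y :: m)) y (z :: (b ++ a))) -
      Sk k (fun m => ins c f (y :: y * z :: m)) (y * z) (b ++ (a ++ [z])) := by
  have e1 : (fun m => cobL f (y :: y * z :: m)) = fun m => (f (y * z :: m) - f (y :: m)) +
      cobL (fun m => f (y :: y * z :: m)) m := funext fun m => cobL_two f y (y * z) m
  have e2 : (fun m => ins c f (y :: y * z :: m)) = fun m =>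
      (f (y :: c * y :: c * (y * z) :: m.map fun x => c * x) -
        f (y :: y * z :: c * (y * z) :: m.map fun x => c * x)) +
        ins c (fun m => f (y :: y * z :: m)) m := funext fun m => ins_two c f y (y * z) m
  have hg : Nrm fun m => f (y :: y * z :: m) := fun a' x b' => hf (y :: y * z :: a') x b'
  have e3 := ih (fun m => f (y :: y * z :: m)) hg (y * z) (b ++ (a ++ [z])) h2
  have e4 : Sk k (fun m => (fun m => f (y :: y * z :: m)) (y * z :: m)) (y * z)
      (b ++ (a ++ [z])) = 0 := by
    have : (fun m => (fun m => f (y :: y * z :: m)) (y * z :: m)) = fun _ : List Z => (0 : R) :=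
      funext fun m => hf [y] (y * z) m
    rw [this, Sk_zero]
  have e5 := rot c hc k (fun m => f (y :: m)) y z (b ++ a) h1
  have e6 : Sk k (fun m => (fun m => f (y :: m)) (y :: y * z :: m)) (y * z)
      ((b ++ a) ++ [z]) = 0 := by
    have : (fun m => (fun m => f (y :: m)) (y :: y * z :: m)) = fun _ : List Z => (0 : R) :=
      funext fun m => hf [] y (y * z :: m)
    rw [this, Sk_zero]
  have e7 := Sk_trans k c (fun m => f (y :: c * y :: c * (y * z) :: m)) (y * z)
    ((b ++ a) ++ [z])
  rw [e6, e7, sub_zero, List.append_assoc] at e5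
  rw [e1, Sk_add, Sk_sub, e3, e4, e5, e2, Sk_add, Sk_sub]
  ring

end main

end IDN

open IDN in
/-- **IDN.** -/
theorem t_IDN : S_IDN.{u, v} := by
  intro Z R _ _ c hc k
  induction k with
  | zero =>
    intro f hf q w hw
    have h1 : Sk (0 + 1) (cobL f) q w = spl (fun a z b => (fun (x : Z) (_ : List Z) => f [x])
        (q * a.prod * z) (b ++ (a ++ [z])) - (fun (x : Z) (_ : List Z) => f [x])
        (q * a.prod) (z :: (b ++ a))) [] w := by
      refine spl_congr _ _ w [] fun p z s _ => ?_
      change cobL f [q * ([] ++ p).prod, q * ([] ++ p).prod * z] = _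
      rw [cobL_two]
      have h0 : cobL (fun m => f (q * ([] ++ p).prod :: q * ([] ++ p).prod * z :: m)) [] = 0 := by
        unfold cobL
        simp
      rw [h0, add_zero]
    refine h1.trans ((tel (fun (x : Z) (_ : List Z) => f [x]) q w []).trans ?_)
    change f [q * ([] ++ w).prod] - f [q * ([] : List Z).prod] = f [c * q] - f [q] - 0
    rw [List.nil_append, List.prod_nil, mul_one, hw, sub_zero, hc]
  | succ k ih =>
    intro f hf q w hw
    have h1 : Sk (k + 1 + 1) (cobL f) q w = spl (fun a z b =>
        (((fun (x : Z) (u : List Z) => Sk (k + 1) (fun m => f (x :: m)) x u)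
          (q * a.prod * z) (b ++ (a ++ [z])) -
        (fun (x : Z) (u : List Z) => Sk (k + 1) (fun m => f (x :: m)) x u)
          (q * a.prod) (z :: (b ++ a)))) -
        Sk k (fun m => ins c f (q * a.prod :: q * a.prod * z :: m)) (q * a.prod * z)
          (b ++ (a ++ [z]))) [] w := by
      refine spl_congr _ _ w [] fun p z s hs => ?_
      rw [List.nil_append]
      obtain ⟨h2, h3⟩ := prod_rot c hc p z s (by rw [← hs, hw])
      exact summand c hc k ih f hf (q * p.prod) z p s h2 h3
    have h6 := tel (fun (x : Z) (u : List Z) => Sk (k + 1) (fun m => f (x :: m)) x u) q w []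
    rw [h1, spl_sub]
    refine (congrArg (fun t => t - _) h6).trans ?_
    have h4 := Sk_trans (k + 1) c (fun m => f (c * q :: m)) q w
    have h5 : q * w.prod = c * q := by rw [hw, hc]
    change (Sk (k + 1) (fun m => f (q * ([] ++ w).prod :: m)) (q * ([] ++ w).prod) ([] ++ w) -
      Sk (k + 1) (fun m => f (q * ([] : List Z).prod :: m)) (q * ([] : List Z).prod) (w ++ [])) -
      Sk (k + 1) (ins c f) q w = _
    rw [List.nil_append, List.append_nil, List.prod_nil, mul_one, h5, h4]

end Pool.Agent.SM4
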