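import Pool.Agent.SM4.St
import Pool.Agent.SM2.St2

/-!
# MP_e40716_gt (SM4): statements, part 2
-/

set_option autoImplicit false

open Pool.Agent.SUR Pool.Agent.SM2

noncomputable section

namespace Pool.Agent.SM4

universe u v

/-- REP4 (200 lines; hypotheses `S_CWT.{u, 0}`, `S_RED.{u, 0}`, `S_CAR.{u, u}`, `S_NIL.{u, u}`, and of SUR:
`s_LMONO.{u}`, `s_LCORE.{u, 0}`, `s_LPOW.{u}`, `s_LALG.{u, u}`, `s_LEIG.{u}`; ADAPTATION of SM2/P_REP.lean).

PROOF. That of `REP.of_rep` (SM2/P_REP.lean). If no power of `ρ (cel g)` is unipotent: `f : Z → ℤ` from `LEIG`,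
`LCORE` with `ι = Unit`, `m = 1`: degree `2 ≤ n + 1`, `LMONO`. Otherwise (characteristic `0`) `LALG` gives
`v, B, X, Y` over `A = closure S` at `c = cel g ^ k'`; `S_NIL` with `r = k * k` and
`ι = Fin k × Fin k`, `s = B 1` (`B 1 1 = 0`, `B 1 (c z) = B 1 z + v` as in the proof of `S_NIL`), `S_CAR`:
`Cart c (r + 1) v₁ Y` over `A`, `v₁ = (r+1)! (-v)^r v ≠ 0`. `AddH` gives `M`, `ψ : A →+ ZM M` with `ψ v₁ ≠ 0`;
`fun k l => ψ (Y k l)` is a `Cart` over `ZM M` with `ψ v₁` (`ψ ((-1) ^ i * a) = (-1) ^ i * ψ a`, `ins` and `cobL` are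
additive). `S_RED` with `m = n`: `Cart c n (N' * ψ v₁)`, `S_CWT`: a weight at `cel g ^ k'` of degree `n`, constant
`≠ 0`; `LPOW` as in `REP.push`; `LMONO`. -/
def S_REP4 : Prop := ∀ (F : Type u) [Field F] (S : Set F), S.Finite → ∀ n k N : ℕ, 0 < n →
  ∀ {G : Type u} [Group G] (g : G), (CharZero F → AddH (Subring.closure S) N) →
  (∀ M : ℕ, 0 < M → TorC (Subgroup.centralizer {g}) (ZM M) n) →
  (∃ ρ : Subgroup.centralizer {g} →* Matrix (Fin k) (Fin k) (Subring.closure S),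
    ¬IsOfFinOrder (ρ (cel g))) →
  ∃ M : ℕ, 0 < M ∧ M.Coprime N ∧ CW M (n + 1) (cel g)

end Pool.Agent.SM4
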